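import Mathlib

/-!
# Block E8-MAX: in a compact Lie algebra every `x` is conjugate to an element which commutes with `y`

`V` a finite dimensional real Lie algebra with a positive definite invariant symmetric form `B`.

Proof. Let `G` be the set of all linear maps `γ : V → V` with `γ [a, b] = [γ a, γ b]` and `B (γ a) (γ b) = B a b`. It contains
the identity, is closed in `End V` (finite dimensional) and bounded (`B` positive definite), so it is compact
(choose any norm; e.g. identify `V` with a Euclidean space through `B`), and its elements are bijective. Choose `γ ∈ G` which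
maximises the continuous function `γ ↦ B (γ x) y`. For `u ∈ V` and `t ∈ ℝ` the map `exp (t ad u)` is in `G`:
`NormedSpace.exp (t • ad u)`; it preserves the bracket because `ad u` is a derivation and `B` because `ad u` is skew.
(Proofs: both sides of `exp(tD)[a,b] = [exp(tD)a, exp(tD)b]` satisfy the same linear ODE, or multiply the power series
with the Leibniz rule; or: the derivative of `t ↦ exp(-tD)[exp(tD)a, exp(tD)b]` is zero; for the form: derivative of
`B(exp(tD)a, exp(tD)b)` is zero.) So `t ↦ B (exp(t ad u) γ x) y` has a maximum at `t = 0`, its derivative there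
`B [u, γ x] y = 0`. As `B [u, γ x] y = - B [γ x, u] y = B u [γ x, y]`, and `u` is arbitrary, `[γ x, y] = 0`.
-/

set_option autoImplicit false

namespace Pool.Agent.Helper73.E8

section

variable {E : Type*} [NormedAddCommGroup E] [InnerProductSpace ℝ E] [FiniteDimensional ℝ E]

private lemma h42_exp_apply (D : E →L[ℝ] E) (a : E) (t : ℝ) :
    HasDerivAt (fun s : ℝ => NormedSpace.exp (s • D) a) (D (NormedSpace.exp (t • D) a)) t := by
  have h := (hasDerivAt_exp_smul_const' D t).clm_apply (hasDerivAt_const t a)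
  simpa using h

omit [FiniteDimensional ℝ E] in
private lemma h42_exp_zero (D : E →L[ℝ] E) (a : E) :
    NormedSpace.exp ((0 : ℝ) • D) a = a := by
  rw [zero_smul, NormedSpace.exp_zero]
  rfl

private lemma h42_exp_inner (D : E →L[ℝ] E) (hS : ∀ a b, inner ℝ (D a) b = -inner ℝ a (D b))
    (a b : E) (t : ℝ) :
    inner ℝ (NormedSpace.exp (t • D) a) (NormedSpace.exp (t • D) b) = inner ℝ a b := by
  have h1 : ∀ s : ℝ, HasDerivAt (fun s : ℝ =>
      inner ℝ (NormedSpace.exp (s • D) a) (NormedSpace.exp (s • D) b)) 0 s := by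
    intro s
    have h := (h42_exp_apply D a s).inner ℝ (h42_exp_apply D b s)
    rwa [hS, add_neg_cancel] at h
  have h2 := is_const_of_deriv_eq_zero (fun s => (h1 s).differentiableAt) (fun s => (h1 s).deriv) t 0
  rw [h2, h42_exp_zero, h42_exp_zero]

private lemma h42_exp_bracket (D : E →L[ℝ] E) (Lc : E →L[ℝ] E →L[ℝ] E)
    (hJ : ∀ a b, D (Lc a b) = Lc (D a) b + Lc a (D b)) (a b : E) (t : ℝ) :
    NormedSpace.exp (t • D) (Lc a b) =
      Lc (NormedSpace.exp (t • D) a) (NormedSpace.exp (t • D) b) := by
  have h1 : ∀ s : ℝ, HasDerivAt (fun s : ℝ => NormedSpace.exp (s • (-D))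
      (Lc (NormedSpace.exp (s • D) a) (NormedSpace.exp (s • D) b))) 0 s := by
    intro s
    have ha := h42_exp_apply D a s
    have hb := h42_exp_apply D b s
    have hL : HasDerivAt (fun s : ℝ => Lc (NormedSpace.exp (s • D) a))
        (Lc (D (NormedSpace.exp (s • D) a))) s := Lc.hasFDerivAt.comp_hasDerivAt s ha
    have h := (hasDerivAt_exp_smul_const (-D) s).clm_apply (hL.clm_apply hb)
    convert h using 1
    rw [mul_apply_eq_comp, neg_apply, hJ, map_neg]
    simp
  have h2 := is_const_of_deriv_eq_zero (fun s => (h1 s).differentiableAt) (fun s => (h1 s).deriv) t 0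
  rw [h42_exp_zero, h42_exp_zero, h42_exp_zero] at h2
  have h3 : NormedSpace.exp (t • D) * NormedSpace.exp (t • (-D)) = 1 := by
    let _ : NormedAlgebra ℚ (E →L[ℝ] E) := NormedAlgebra.restrictScalars ℚ ℝ (E →L[ℝ] E)
    rw [← NormedSpace.exp_add_of_commute, smul_neg, add_neg_cancel, NormedSpace.exp_zero]
    rw [smul_neg]
    exact (Commute.refl _).neg_right
  have h4 := congrArg (fun z => NormedSpace.exp (t • D) z) h2
  rw [← h4, ← mul_apply_eq_comp, h3]
  rfl

private lemma h42_core (L : E →ₗ[ℝ] E →ₗ[ℝ] E)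
    (hJ : ∀ u a b, L u (L a b) = L (L u a) b + L a (L u b))
    (hS : ∀ u a b, inner ℝ (L u a) b = -inner ℝ a (L u b)) (hA : ∀ a b, L a b = -L b a) (x y : E) :
    ∃ γ : E →L[ℝ] E, (∀ a b, γ (L a b) = L (γ a) (γ b)) ∧
      (∀ a b, inner ℝ (γ a) (γ b) = inner ℝ a b) ∧ L (γ x) y = 0 := by
  let Lc : E →L[ℝ] E →L[ℝ] E := LinearMap.toContinuousLinearMap
    ((LinearMap.toContinuousLinearMap : (E →ₗ[ℝ] E) ≃ₗ[ℝ] (E →L[ℝ] E)).toLinearMap ∘ₗ L)
  have hLc : ∀ a b, Lc a b = L a b := fun a b => rfl
  let G : Set (E →L[ℝ] E) := {γ | (∀ a b, γ (L a b) = L (γ a) (γ b)) ∧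
    ∀ a b, inner ℝ (γ a) (γ b) = inner ℝ a b}
  have hclosed : IsClosed G := by
    have h1 : G = (⋂ a, ⋂ b, {γ : E →L[ℝ] E | γ (L a b) = Lc (γ a) (γ b)}) ∩
        ⋂ a, ⋂ b, {γ : E →L[ℝ] E | inner ℝ (γ a) (γ b) = inner ℝ a b} := by
      ext γ
      simp only [G, Set.mem_ofPred_eq, Set.mem_inter_iff, Set.mem_iInter, hLc]
    rw [h1]
    refine IsClosed.inter (isClosed_iInter fun a => isClosed_iInter fun b => isClosed_eq ?_ ?_)
      (isClosed_iInter fun a => isClosed_iInter fun b => isClosed_eq ?_ ?_)
    · fun_prop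
    · exact (Lc.continuous.comp (continuous_id.clm_apply continuous_const)).clm_apply
        (continuous_id.clm_apply continuous_const)
    · exact Continuous.inner (continuous_id.clm_apply continuous_const)
        (continuous_id.clm_apply continuous_const)
    · fun_prop
  have hbdd : Bornology.IsBounded G := by
    rw [isBounded_iff_forall_norm_le]
    refine ⟨1, fun γ hγ => ContinuousLinearMap.opNorm_le_bound _ zero_le_one fun a => ?_⟩
    rw [one_mul, @norm_eq_sqrt_real_inner E, @norm_eq_sqrt_real_inner E, hγ.2 a a]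
  have hcomp : IsCompact G := Metric.isCompact_of_isClosed_isBounded hclosed hbdd
  have hone : (1 : E →L[ℝ] E) ∈ G := ⟨fun a b => rfl, fun a b => rfl⟩
  obtain ⟨γ, hγ, hmax⟩ := hcomp.exists_isMaxOn ⟨1, hone⟩
    (f := fun γ : E →L[ℝ] E => inner ℝ (γ x) y)
    (Continuous.inner (continuous_id.clm_apply continuous_const) continuous_const).continuousOn
  refine ⟨γ, hγ.1, hγ.2, ?_⟩
  have hzero : ∀ u, inner ℝ (L u (γ x)) y = 0 := by
    intro u
    set D : E →L[ℝ] E := LinearMap.toContinuousLinearMap (L u) with hD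
    have hDa : ∀ a, D a = L u a := fun a => rfl
    have hG : ∀ t : ℝ, NormedSpace.exp (t • D) * γ ∈ G := by
      intro t
      refine ⟨fun a b => ?_, fun a b => ?_⟩
      · rw [mul_apply_eq_comp, mul_apply_eq_comp,
          mul_apply_eq_comp, hγ.1 a b, ← hLc, ← hLc]
        exact h42_exp_bracket D Lc (fun a b => by
          rw [hDa, hDa, hDa, hLc, hLc, hLc, hJ]) _ _ t
      · rw [mul_apply_eq_comp, mul_apply_eq_comp, ← hγ.2 a b]
        exact h42_exp_inner D (fun a b => hS u a b) _ _ t
    have h1 : IsLocalMax (fun t : ℝ => inner ℝ (NormedSpace.exp (t • D) (γ x)) y) 0 := by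
      refine Filter.Eventually.of_forall fun t => ?_
      have h2 := hmax (hG t)
      simp only [Set.mem_ofPred_eq, mul_apply_eq_comp] at h2
      change inner ℝ (NormedSpace.exp (t • D) (γ x)) y ≤
        inner ℝ (NormedSpace.exp ((0 : ℝ) • D) (γ x)) y
      rw [h42_exp_zero]
      exact h2
    have h3 := (h42_exp_apply D (γ x) 0).inner ℝ (hasDerivAt_const (0 : ℝ) y)
    have h4 := h1.hasDerivAt_eq_zero h3
    rw [inner_zero_right, zero_add, h42_exp_zero, hDa] at h4
    exact h4
  have h5 := hzero (L (γ x) y)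
  rw [hA, inner_neg_left, hS, neg_neg] at h5
  exact inner_self_eq_zero.1 h5

end

theorem exists_aut_comm {V : Type*} [LieRing V] [LieAlgebra ℝ V] [FiniteDimensional ℝ V]
    (B : LinearMap.BilinForm ℝ V) (hsymm : ∀ x y : V, B x y = B y x) (hpos : ∀ x : V, x ≠ 0 → 0 < B x x)
    (hinv : ∀ x y z : V, B ⁅x, y⁆ z = -B y ⁅x, z⁆) (x y : V) :
    ∃ γ : V ≃ₗ⁅ℝ⁆ V, (∀ a b, B (γ a) (γ b) = B a b) ∧ ⁅γ x, y⁆ = 0 := by
  let c : InnerProductSpace.Core ℝ V :=
    { inner := fun a b => B a b
      conj_inner_symm := fun a b => by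
        change (starRingEnd ℝ) (B b a) = B a b
        rw [hsymm b a]
        rfl
      re_inner_nonneg := fun a => by
        change 0 ≤ B a a
        by_cases h : a = 0
        · rw [h]
          simp
        · exact (hpos a h).le
      add_left := fun a b d => by
        change B (a + b) d = B a d + B b d
        rw [map_add, LinearMap.add_apply]
      smul_left := fun a b r => by
        change B (r • a) b = r * B a b
        rw [map_smul, LinearMap.smul_apply, smul_eq_mul]
      definite := fun a h => by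
        by_contra h'
        exact absurd h (hpos a h').ne' }
  let _ : NormedAddCommGroup V := @InnerProductSpace.Core.toNormedAddCommGroup ℝ V _ _ _ c
  let _ : InnerProductSpace ℝ V := InnerProductSpace.ofCore c.toCore
  have hin : ∀ a b : V, inner ℝ a b = B a b := fun a b => rfl
  let L : V →ₗ[ℝ] V →ₗ[ℝ] V := (LieAlgebra.ad ℝ V : V →ₗ[ℝ] Module.End ℝ V)
  have hL : ∀ a b : V, L a b = ⁅a, b⁆ := fun a b => rfl
  obtain ⟨γ, h1, h2, h3⟩ := h42_core L (fun u a b => by
      rw [hL, hL, hL, hL, hL, hL]
      exact leibniz_lie u a b) (fun u a b => by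
      rw [hin, hin, hL, hL]
      exact hinv u a b) (fun a b => by
      rw [hL, hL]
      exact (lie_skew a b).symm) x y
  have hinj : Function.Injective γ.toLinearMap := by
    rw [injective_iff_map_eq_zero]
    intro a ha
    by_contra h
    have h4 := h2 a a
    have h5 : γ a = 0 := ha
    rw [h5, hin, hin] at h4
    have h6 := hpos a h
    rw [← h4] at h6
    simp at h6
  let e : V ≃ₗ[ℝ] V := LinearEquiv.ofInjectiveEndo γ.toLinearMap hinj
  have he : ∀ a, e a = γ a := fun a => rfl
  refine ⟨{ toLinearMap := e.toLinearMap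
            map_lie' := ?_
            invFun := e.symm
            left_inv := e.left_inv
            right_inv := e.right_inv }, ?_, ?_⟩
  · intro a b
    exact h1 a b
  · intro a b
    exact h2 a b
  · exact h3

end Pool.Agent.Helper73.E8
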