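import Mathlib

/-!
# Block E8-REGEL: regular elements in abelian subspaces

`V` a finite dimensional real Lie algebra with a positive definite invariant symmetric form `B`, `A` a subspace of pairwise
commuting elements. Some `x ∈ A` has the centraliser of `A` as its centraliser.

Proof. Choose `x ∈ A` such that the dimension of `C(x) = ker ad x` is minimal. Suppose some `v ∈ C(x)` and `y ∈ A` have
`[y, v] ≠ 0`. `ad x` and `ad y` commute (Jacobi, `[x, y] = 0`) and are skew for `B`. `C(x)` is stable under `ad y`, and so is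
`C(x)^⊥` (skewness), and `V = C(x) ⊕ C(x)^⊥`. On `C(x)^⊥` the map `ad x` is injective (a vector in the kernel is in
`C(x) ∩ C(x)^⊥ = 0`), so the determinant of `ad (x + ε y)` on `C(x)^⊥` is a polynomial in `ε`, non-zero at 0, hence
non-zero for some `ε ≠ 0`; for this `ε`: `C(x + ε y) = C(x) ∩ C(y)`: a vector `a + b` with `a ∈ C(x)`, `b ∈ C(x)^⊥` killed by
`ad (x + ε y)` has `b = 0` and `ε [y, a] = 0`. This is a proper subspace of `C(x)` (`v` is not in it), of smaller
dimension, contradiction to minimality.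

The Lean proof uses the range `R` of `ad x` in place of `C(x)^⊥`, and `T = (ad x |_R)⁻¹ (ad y |_R)`, which has finitely many
eigenvalues: for `μ` with `-μ` not an eigenvalue, `C(μ x + y) ⊆ C(x)`.
-/

set_option autoImplicit false

namespace Pool.Agent.Helper73.E8

theorem exists_regular {V : Type*} [LieRing V] [LieAlgebra ℝ V] [FiniteDimensional ℝ V]
    (B : LinearMap.BilinForm ℝ V) (hsymm : ∀ x y : V, B x y = B y x) (hpos : ∀ x : V, x ≠ 0 → 0 < B x x)
    (hinv : ∀ x y z : V, B ⁅x, y⁆ z = -B y ⁅x, z⁆) (A : Submodule ℝ V) (hA : ∀ x ∈ A, ∀ y ∈ A, ⁅x, y⁆ = 0) :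
    ∃ x ∈ A, ∀ v : V, ⁅x, v⁆ = 0 → ∀ y ∈ A, ⁅y, v⁆ = 0 := by
  classical
  have _ := hsymm
  let D : V → V →ₗ[ℝ] V := fun x => ((LieAlgebra.ad ℝ V) x : V →ₗ[ℝ] V)
  have hD : ∀ x v : V, D x v = ⁅x, v⁆ := fun x v => LieAlgebra.ad_apply ℝ V x v
  have hinj : ∀ x w : V, ⁅x, ⁅x, w⁆⁆ = 0 → ⁅x, w⁆ = 0 := by
    intro x w h
    by_contra hne
    have h1 := hpos _ hne
    rw [hinv x w ⁅x, w⁆, h, map_zero, neg_zero] at h1
    exact lt_irrefl _ h1
  let f : V → ℕ := fun x => Module.finrank ℝ (LinearMap.ker (D x))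
  obtain ⟨x, hxA, hmin⟩ := (measure f).wf.has_min {x | x ∈ A} ⟨0, A.zero_mem⟩
  refine ⟨x, hxA, ?_⟩
  intro v hv y hyA
  by_contra hne
  have hcomm : ∀ w : V, ⁅y, ⁅x, w⁆⁆ = ⁅x, ⁅y, w⁆⁆ := by
    intro w
    have h := leibniz_lie y x w
    rw [hA y hyA x hxA, zero_lie, zero_add] at h
    exact h
  -- the range of `ad x` and the two restricted maps
  let R : Submodule ℝ V := LinearMap.range (D x)
  have hRx : ∀ w ∈ R, D x w ∈ R := fun w _ => LinearMap.mem_range_self _ _
  have hRy : ∀ w ∈ R, D y w ∈ R := by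
    rintro w ⟨u, rfl⟩
    refine ⟨D y u, ?_⟩
    simp only [hD]
    exact (hcomm u).symm
  let X : R →ₗ[ℝ] R := (D x).restrict hRx
  let Y : R →ₗ[ℝ] R := (D y).restrict hRy
  have hXinj : Function.Injective X := by
    rw [injective_iff_map_eq_zero]
    rintro ⟨w, u, rfl⟩ h
    have h1 : D x (D x u) = 0 := congrArg Subtype.val h
    simp only [hD] at h1
    have h2 := hinj x u h1
    apply Subtype.ext
    change D x u = 0
    rw [hD]
    exact h2
  let E : R ≃ₗ[ℝ] R := LinearEquiv.ofInjectiveEndo X hXinj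
  let T : Module.End ℝ R := E.symm.toLinearMap ∘ₗ Y
  obtain ⟨ν, hν⟩ : ∃ ν : ℝ, ¬ T.HasEigenvalue ν := by
    by_contra hall
    push Not at hall
    have hfin : Set.Finite {ν : ℝ | T.HasEigenvalue ν} := Module.End.finite_hasEigenvalue T
    have : {ν : ℝ | T.HasEigenvalue ν} = Set.univ := Set.eq_univ_of_forall hall
    rw [this] at hfin
    exact Set.infinite_univ hfin
  let z : V := y - ν • x
  have hzA : z ∈ A := A.sub_mem hyA (A.smul_mem _ hxA)
  have hzx : ∀ w : V, ⁅z, w⁆ = 0 → ⁅x, w⁆ = 0 := by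
    intro w hw
    have hyw : ⁅y, w⁆ = ν • ⁅x, w⁆ := by
      have : ⁅y - ν • x, w⁆ = 0 := hw
      rw [sub_lie, smul_lie, sub_eq_zero] at this
      exact this
    by_contra hxw
    apply hν
    let w' : R := ⟨D x w, LinearMap.mem_range_self _ _⟩
    have hw' : w' ≠ 0 := by
      intro h
      apply hxw
      have h3 : D x w = 0 := congrArg Subtype.val h
      rw [hD] at h3
      exact h3
    have hYw : Y w' = ν • X w' := by
      apply Subtype.ext
      change D y (D x w) = ν • D x (D x w)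
      simp only [hD]
      rw [hcomm, hyw, lie_smul]
    have hTw : T w' = ν • w' := by
      change E.symm (Y w') = ν • w'
      rw [hYw, map_smul]
      congr 1
      exact E.symm_apply_apply w'
    exact Module.End.hasEigenvalue_of_hasEigenvector
      ⟨Module.End.mem_eigenspace_iff.mpr hTw, hw'⟩
  have hlt : LinearMap.ker (D z) < LinearMap.ker (D x) := by
    refine lt_of_le_of_ne ?_ ?_
    · intro w hw
      rw [LinearMap.mem_ker, hD] at hw ⊢
      exact hzx w hw
    · intro heq
      have hvx : v ∈ LinearMap.ker (D x) := by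
        rw [LinearMap.mem_ker, hD]
        exact hv
      rw [← heq, LinearMap.mem_ker, hD] at hvx
      apply hne
      have : ⁅y - ν • x, v⁆ = 0 := hvx
      rw [sub_lie, smul_lie, hv, smul_zero, sub_zero] at this
      exact this
  exact hmin z hzA (Submodule.finrank_lt_finrank_of_lt hlt)

end Pool.Agent.Helper73.E8
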