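import Pool.Agent.Helper73.E8.Cpt.Conj
import Pool.Agent.Helper73.E8.Cpt.Max
import Pool.Agent.Helper73.E8.Cpt.Regel

/-!
# Block E8-CARTANR: a self-centralising abelian subspace of a compact real form is a Cartan subalgebra

Proof. Let `B x y = - (bf (j x) (j y)).re` on `V`: symmetric, positive definite, invariant (`bf_invariant`). By `exists_conj` there is
`φ` with `cc (φ (j x)) = φ (j x)`; write `k = φ ∘ j`, again a real form (`bf` is invariant under automorphisms because
`60 bf` is the Killing form, `killingForm_eq`), and the image of `k` is the set of all `y` with `cc y = y` (if `cc y = y`,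
`y = k a + i k b`, apply `cc`: `y = k a - i k b`, so `k b = 0`).
Let `ρ' : Fin 8 → ℂ` with `pr ρ' a = i ht a` for all roots (`ρ' = i (46, 68, 91, 135, 110, 84, 57, 29)`); `cc (c ρ') = c ρ'`, so
`c ρ' = k y0`. An element `y` with `[c ρ', y] = 0` is in the Cartan subalgebra (`y.x = 0`): `i ht a * y.x a = 0`
(`ht_root_ne_zero`). Let `A0 = {v ∈ V : (k v).x = 0}`, abelian, `y0 ∈ A0`, `dim_R A0 = 8` (`k` identifies it with
`{c h : conj h = - h}`).
Choose `x ∈ A` regular (`exists_regular`: `C(x) = C(A) = A`), and `γ` with `[γ x, y0] = 0` (`exists_aut_comm`); so `γ x ∈ A0`.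
For `v ∈ A0`: `[γ x, v] = 0`, `[x, γ^-1 v] = 0`, so `γ^-1 v ∈ A`. Conversely for `a ∈ A`: `γ^-1 y0 ∈ A`, so `[a, γ^-1 y0] = 0`, `[γ a, y0] = 0`,
`γ a ∈ A0`. So `γ A = A0` and `dim A = 8`. Extend `γ` to the automorphism `Γ (k a + i k b) = k (γ a) + i k (γ b)` of `Chev ℂ`; the
wanted automorphism is `Γ ∘ φ`: `(Γ (φ (j a))).x = (k (γ a)).x = 0` for `a ∈ A`.
-/

set_option autoImplicit false

namespace Pool.Agent.Helper73.E8

open Chev

section RForm4

variable {V : Type*} [LieRing V] [LieAlgebra ℝ V] {j : V → Chev ℂ}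

private theorem rf_zero4 (hj : RealForm j) : j 0 = 0 := by
  have h := hj.smul 0 0
  rwa [zero_smul, Complex.ofReal_zero, zero_smul] at h

private theorem rf_neg4 (hj : RealForm j) (a : V) : j (-a) = -j a := by
  have h := hj.smul (-1) a
  rwa [neg_one_smul, Complex.ofReal_neg, Complex.ofReal_one, neg_one_smul] at h

private theorem rf_sub4 (hj : RealForm j) (a b : V) : j (a - b) = j a - j b := by
  rw [sub_eq_add_neg, hj.add, rf_neg4 hj, sub_eq_add_neg]

private theorem rf_inj4 (hj : RealForm j) {a : V} (h : j a = 0) : a = 0 :=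
  (hj.inj a 0 (by rw [h, rf_zero4 hj, smul_zero, add_zero])).1

private theorem rf_uniq4 (hj : RealForm j) {a b a' b' : V}
    (h : j a + Complex.I • j b = j a' + Complex.I • j b') : a = a' ∧ b = b' := by
  have h1 := hj.inj (a - a') (b - b') (by
    rw [rf_sub4 hj, rf_sub4 hj, smul_sub, sub_add_sub_comm, h, sub_self])
  exact ⟨sub_eq_zero.1 h1.1, sub_eq_zero.1 h1.2⟩

/-- The real part. -/
private noncomputable def rp4 (hj : RealForm j) (y : Chev ℂ) : V := (hj.span y).choose

/-- The imaginary part. -/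
private noncomputable def jp4 (hj : RealForm j) (y : Chev ℂ) : V :=
  (hj.span y).choose_spec.choose

private theorem rj4 (hj : RealForm j) (y : Chev ℂ) :
    y = j (rp4 hj y) + Complex.I • j (jp4 hj y) := (hj.span y).choose_spec.choose_spec

/-- The extension of a real linear map. -/
private noncomputable def ex4 (hj : RealForm j) (γ : V ≃ₗ⁅ℝ⁆ V) (y : Chev ℂ) : Chev ℂ :=
  j (γ (rp4 hj y)) + Complex.I • j (γ (jp4 hj y))

private theorem ex4_eq (hj : RealForm j) (γ : V ≃ₗ⁅ℝ⁆ V) (a b : V) :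
    ex4 hj γ (j a + Complex.I • j b) = j (γ a) + Complex.I • j (γ b) := by
  have h := rf_uniq4 hj (rj4 hj (j a + Complex.I • j b))
  unfold ex4
  rw [← h.1, ← h.2]

private theorem ex4_j (hj : RealForm j) (γ : V ≃ₗ⁅ℝ⁆ V) (a : V) : ex4 hj γ (j a) = j (γ a) := by
  have h := ex4_eq hj γ a 0
  rwa [rf_zero4 hj, smul_zero, add_zero, map_zero, rf_zero4 hj, smul_zero, add_zero] at h

private theorem cpl_add4 (hj : RealForm j) (a b a' b' : V) :
    j a + Complex.I • j b + (j a' + Complex.I • j b') =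
      j (a + a') + Complex.I • j (b + b') := by
  rw [hj.add, hj.add, smul_add]
  abel

private theorem cpl_smul4 (hj : RealForm j) (r : ℂ) (a b : V) :
    r • (j a + Complex.I • j b) =
      j (r.re • a - r.im • b) + Complex.I • j (r.re • b + r.im • a) := by
  rw [rf_sub4 hj, hj.add, hj.smul, hj.smul, hj.smul, hj.smul]
  have hr : r = (r.re : ℂ) + (r.im : ℂ) * Complex.I := (Complex.re_add_im r).symm
  have hI : Complex.I * Complex.I = -1 := Complex.I_mul_I
  ext i
  · simp only [smul_h, add_h, sub_h, Pi.smul_apply, Pi.add_apply, Pi.sub_apply, smul_eq_mul]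
    linear_combination ((j a).h i + Complex.I * (j b).h i) * hr + (r.im : ℂ) * (j b).h i * hI
  · simp only [smul_x, add_x, sub_x, Pi.smul_apply, Pi.add_apply, Pi.sub_apply, smul_eq_mul]
    linear_combination ((j a).x i + Complex.I * (j b).x i) * hr + (r.im : ℂ) * (j b).x i * hI

private theorem cpl_lie4 (hj : RealForm j) (a b a' b' : V) :
    ⁅j a + Complex.I • j b, j a' + Complex.I • j b'⁆ =
      j (⁅a, a'⁆ - ⁅b, b'⁆) + Complex.I • j (⁅a, b'⁆ + ⁅b, a'⁆) := by
  rw [rf_sub4 hj, hj.add, hj.lie, hj.lie, hj.lie, hj.lie, add_lie, lie_add, lie_add, smul_lie,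
    lie_smul, smul_lie, lie_smul, smul_smul, Complex.I_mul_I, neg_one_smul, smul_add]
  abel

/-- The extension of an automorphism of the real form. -/
private theorem exists_ext4 (hj : RealForm j) (γ : V ≃ₗ⁅ℝ⁆ V) :
    ∃ Γ : Chev ℂ ≃ₗ⁅ℂ⁆ Chev ℂ, ∀ a, Γ (j a) = j (γ a) := by
  have hinv : ∀ (γ γ' : V ≃ₗ⁅ℝ⁆ V), (∀ v, γ (γ' v) = v) →
      ∀ y, ex4 hj γ (ex4 hj γ' y) = y := by
    intro γ γ' h y
    obtain ⟨a, b, rfl⟩ := hj.span y
    rw [ex4_eq, ex4_eq, h, h]
  let Γ : Chev ℂ ≃ₗ⁅ℂ⁆ Chev ℂ :=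
    { toFun := ex4 hj γ
      map_add' := by
        intro y z
        obtain ⟨a, b, rfl⟩ := hj.span y
        obtain ⟨a', b', rfl⟩ := hj.span z
        rw [cpl_add4 hj, ex4_eq, ex4_eq, ex4_eq, cpl_add4 hj, map_add, map_add]
      map_smul' := by
        intro r y
        obtain ⟨a, b, rfl⟩ := hj.span y
        rw [cpl_smul4 hj, ex4_eq, ex4_eq, RingHom.id_apply, cpl_smul4 hj, map_sub, map_add,
          map_smul, map_smul, map_smul, map_smul]
      map_lie' := by
        intro y z
        show ex4 hj γ ⁅y, z⁆ = ⁅ex4 hj γ y, ex4 hj γ z⁆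
        obtain ⟨a, b, rfl⟩ := hj.span y
        obtain ⟨a', b', rfl⟩ := hj.span z
        rw [cpl_lie4 hj, ex4_eq, ex4_eq, ex4_eq, cpl_lie4 hj, map_sub, map_add,
          LieEquiv.map_lie, LieEquiv.map_lie, LieEquiv.map_lie, LieEquiv.map_lie]
      invFun := ex4 hj γ.symm
      left_inv := hinv γ.symm γ (fun v => γ.symm_apply_apply v)
      right_inv := hinv γ γ.symm (fun v => γ.apply_symm_apply v) }
  exact ⟨Γ, fun a => ex4_j hj γ a⟩

end RForm4

/-! ### The standard compact form -/

private theorem cc_add4 (y z : Chev ℂ) : cc (y + z) = cc y + cc z := by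
  ext i
  · simp only [cc, add_h, Pi.add_apply, map_add]
    ring
  · simp only [cc, add_x, Pi.add_apply, map_add]

private theorem cc_I4 (y : Chev ℂ) : cc (Complex.I • y) = -(Complex.I • cc y) := by
  ext i
  · simp only [cc, smul_h, neg_h, Pi.smul_apply, Pi.neg_apply, smul_eq_mul, map_mul, Complex.conj_I]
    ring
  · simp only [cc, smul_x, neg_x, Pi.smul_apply, Pi.neg_apply, smul_eq_mul, map_mul, Complex.conj_I]
    ring

/-- The dual Weyl vector. -/
private def rho4 : Lat := ![46, 68, 91, 135, 110, 84, 57, 29]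

private theorem ip_rho4 (x : Lat) : ip rho4 x = ht x := by
  simp [ip, Fin.sum_univ_eight, CartanMatrix.E₈, rho4, ht]
  ring

/-- The regular element of the Cartan subalgebra. -/
private noncomputable def ro4 : Fin 8 → ℂ := Complex.I • fun i => (rho4 i : ℂ)

private theorem pr_ro4 (a : Lat) : pr ro4 a = Complex.I * (ht a : ℂ) := by
  unfold ro4
  rw [pr_smul, pr_intCast, ip_rho4]

private theorem cc_ro4 : cc (c ro4) = c ro4 := by
  ext i
  · simp only [cc, c_h, ro4, Pi.smul_apply, smul_eq_mul, map_mul, Complex.conj_I, map_intCast]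
    ring
  · simp only [cc, c_x, Pi.zero_apply, map_zero]

private theorem comm_ro4 (y : Chev ℂ) : ⁅c ro4, y⁆ = 0 ↔ y.x = 0 := by
  constructor
  · intro h
    funext a
    have h1 := congrFun (congrArg Chev.x h) a
    simp only [brk_x, c_h, c_x, Pi.zero_apply, zero_x, mul_zero, zero_mul, sub_zero, ite_self,
      Finset.sum_const_zero, add_zero] at h1
    rw [pr_ro4] at h1
    have h2 : (ht a.1 : ℂ) ≠ 0 := by
      have := ht_root_ne_zero a
      exact_mod_cast this
    rcases mul_eq_zero.1 h1 with h3 | h3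
    · exact absurd h3 (mul_ne_zero Complex.I_ne_zero h2)
    · exact h3
  · intro h
    have h1 : y = c y.h := by
      ext i
      · rfl
      · rw [h]
        rfl
    rw [h1, lie_c_c]

theorem exists_cartanR {V : Type*} [LieRing V] [LieAlgebra ℝ V] [FiniteDimensional ℝ V] (j : V → Chev ℂ) (hj : RealForm j)
    (A : Submodule ℝ V) (hA : ∀ x ∈ A, ∀ y ∈ A, ⁅x, y⁆ = 0) (hself : ∀ v, (∀ x ∈ A, ⁅x, v⁆ = 0) → v ∈ A) :
    Module.finrank ℝ A = 8 ∧ ∃ φ : Chev ℂ ≃ₗ⁅ℂ⁆ Chev ℂ, ∀ x ∈ A, (φ (j x)).x = 0 := by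
  classical
  obtain ⟨φ, hφ⟩ := exists_conj j hj
  -- the real form `φ ∘ j` is the set of the fixed points of `cc`
  have hfix : ∀ y : Chev ℂ, cc y = y → ∃ v, y = φ (j v) := by
    intro y hy
    obtain ⟨a, b, hab⟩ := hj.span (φ.symm y)
    have h1 : y = φ (j a) + Complex.I • φ (j b) := by
      rw [← map_smul, ← map_add, ← hab, LieEquiv.apply_symm_apply]
    have h2 : φ (j a) + -(Complex.I • φ (j b)) = φ (j a) + Complex.I • φ (j b) := by
      have h3 : cc (φ (j a) + Complex.I • φ (j b)) = φ (j a) + Complex.I • φ (j b) := by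
        rw [← h1, hy]
      rwa [cc_add4, cc_I4, hφ, hφ] at h3
    have h4 : Complex.I • φ (j b) = 0 := by
      have h5 := add_left_cancel h2
      have h6 : (2 : ℂ) • (Complex.I • φ (j b)) = 0 := by
        rw [two_smul]
        nth_rewrite 1 [← h5]
        exact neg_add_cancel _
      exact (smul_eq_zero.1 h6).resolve_left two_ne_zero
    exact ⟨a, by rw [h1, h4, add_zero]⟩
  have hinj : ∀ v, φ (j v) = 0 → v = 0 := by
    intro v hv
    apply rf_inj4 hj
    have h1 := congrArg φ.symm hv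
    rwa [LieEquiv.symm_apply_apply, map_zero] at h1
  obtain ⟨y0, hy0⟩ := hfix (c ro4) cc_ro4
  have hcomm : ∀ v, ⁅y0, v⁆ = 0 ↔ (φ (j v)).x = 0 := by
    intro v
    rw [← comm_ro4, hy0, ← LieEquiv.map_lie, ← hj.lie]
    constructor
    · intro h
      rw [h, rf_zero4 hj, map_zero]
    · exact hinj _
  -- the standard Cartan subalgebra
  let A0 : Submodule ℝ V :=
    { carrier := {v | (φ (j v)).x = 0}
      add_mem' := by
        intro a b ha hb
        have ha' : (φ (j a)).x = 0 := ha
        have hb' : (φ (j b)).x = 0 := hb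
        show (φ (j (a + b))).x = 0
        rw [hj.add, map_add, add_x, ha', hb', add_zero]
      zero_mem' := by
        show (φ (j 0)).x = 0
        rw [rf_zero4 hj, map_zero, zero_x]
      smul_mem' := by
        intro r a ha
        have ha' : (φ (j a)).x = 0 := ha
        show (φ (j (r • a))).x = 0
        rw [hj.smul, map_smul, smul_x, ha', smul_zero] }
  have hA0 : ∀ v, v ∈ A0 ↔ (φ (j v)).x = 0 := fun _ => Iff.rfl
  have hA0ab : ∀ u ∈ A0, ∀ v ∈ A0, ⁅u, v⁆ = 0 := by
    intro u hu v hv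
    apply hinj
    rw [hj.lie, LieEquiv.map_lie]
    have h1 : ∀ y : Chev ℂ, y.x = 0 → y = c y.h := by
      intro y hy
      ext i
      · rfl
      · rw [hy]
        rfl
    rw [h1 _ hu, h1 _ hv, lie_c_c]
  have hy0A : y0 ∈ A0 := by
    rw [hA0, ← hy0]
    rfl
  -- its dimension
  have hre : ∀ v ∈ A0, ∀ i, ((φ (j v)).h i).re = 0 := by
    intro v _ i
    have h1 := congrArg Complex.re (congrFun (congrArg Chev.h (hφ v)) i)
    simp only [cc, Complex.neg_re, Complex.conj_re] at h1
    linarith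
  let E : A0 →ₗ[ℝ] (Fin 8 → ℝ) :=
    { toFun := fun v i => ((φ (j v)).h i).im
      map_add' := by
        intro u v
        funext i
        show ((φ (j ((u : V) + (v : V)))).h i).im = _
        rw [hj.add, map_add, add_h, Pi.add_apply, Complex.add_im]
        rfl
      map_smul' := by
        intro r v
        funext i
        show ((φ (j (r • (v : V)))).h i).im = _
        rw [hj.smul, map_smul, smul_h, Pi.smul_apply, smul_eq_mul, Complex.im_ofReal_mul]
        rfl }
  have hE : Function.Bijective E := by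
    constructor
    · rw [← LinearMap.ker_eq_bot, LinearMap.ker_eq_bot']
      intro v hv
      apply Subtype.ext
      apply hinj
      ext i
      · apply Complex.ext
        · exact hre v v.2 i
        · exact congrFun hv i
      · rw [(hA0 v).1 v.2]
        rfl
    · intro r
      have h1 : cc (c fun i => Complex.I * (r i : ℂ)) = c fun i => Complex.I * (r i : ℂ) := by
        ext i
        · simp only [cc, c_h, map_mul, Complex.conj_I, Complex.conj_ofReal]
          ring
        · simp only [cc, c_x, Pi.zero_apply, map_zero]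
      obtain ⟨v, hv⟩ := hfix _ h1
      have hvA : v ∈ A0 := by
        rw [hA0, ← hv]
        rfl
      refine ⟨⟨v, hvA⟩, ?_⟩
      funext i
      show ((φ (j v)).h i).im = r i
      rw [← hv]
      simp
  have hdim : Module.finrank ℝ A0 = 8 := by
    rw [(LinearEquiv.ofBijective E hE).finrank_eq, Module.finrank_fintype_fun_eq_card,
      Fintype.card_fin]
  -- the invariant form
  let B : LinearMap.BilinForm ℝ V := LinearMap.mk₂ ℝ (fun x y => -(bf (j x) (j y)).re)
    (fun x x' y => by
      rw [hj.add, bf_add_left, Complex.add_re]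
      ring)
    (fun r x y => by
      rw [hj.smul, bf_smul_left, Complex.re_ofReal_mul, smul_eq_mul]
      ring)
    (fun x y y' => by
      rw [hj.add, bf_add_right, Complex.add_re]
      ring)
    (fun r x y => by
      rw [hj.smul, bf_smul_right, Complex.re_ofReal_mul, smul_eq_mul]
      ring)
  have hB : ∀ x y, B x y = -(bf (j x) (j y)).re := fun _ _ => rfl
  have hsymm : ∀ x y, B x y = B y x := by
    intro x y
    rw [hB, hB, bf_comm]
  have hpos : ∀ x, x ≠ 0 → 0 < B x x := by
    intro x hx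
    rw [hB]
    have := hj.neg x hx
    linarith
  have hinv : ∀ x y z : V, B ⁅x, y⁆ z = -B y ⁅x, z⁆ := by
    intro x y z
    rw [hB, hB, hj.lie, hj.lie, bf_invariant, Complex.neg_re]
  obtain ⟨x, hxA, hx⟩ := exists_regular B hsymm hpos hinv A hA
  have hx' : ∀ v, ⁅x, v⁆ = 0 → v ∈ A := fun v hv => hself v (hx v hv)
  obtain ⟨γ, -, hγ⟩ := exists_aut_comm B hsymm hpos hinv x y0
  have hγx : γ x ∈ A0 := by
    rw [hA0, ← hcomm, ← lie_skew, hγ, neg_zero]
  have hback : ∀ v ∈ A0, γ.symm v ∈ A := by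
    intro v hv
    apply hx'
    have h1 := hA0ab _ hγx v hv
    have h2 := congrArg γ.symm h1
    rwa [LieEquiv.map_lie, LieEquiv.symm_apply_apply, map_zero] at h2
  have hforw : ∀ a ∈ A, γ a ∈ A0 := by
    intro a ha
    rw [hA0, ← hcomm]
    have h1 := hA _ (hback y0 hy0A) a ha
    have h2 := congrArg γ h1
    rwa [LieEquiv.map_lie, LieEquiv.apply_symm_apply, map_zero] at h2
  refine ⟨?_, ?_⟩
  · -- `γ` identifies `A` with `A0`
    have h1 : A.map (γ.toLinearEquiv : V →ₗ[ℝ] V) = A0 := by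
      ext v
      constructor
      · rintro ⟨a, ha, rfl⟩
        exact hforw a ha
      · intro hv
        exact ⟨γ.symm v, hback v hv, γ.apply_symm_apply v⟩
    rw [← hdim, ← h1]
    exact (LinearEquiv.finrank_map_eq γ.toLinearEquiv A).symm
  · obtain ⟨Γ, hΓ⟩ := exists_ext4 hj γ
    refine ⟨Γ.trans φ, fun a ha => ?_⟩
    rw [LieEquiv.trans_apply, hΓ]
    exact hforw a ha

end Pool.Agent.Helper73.E8
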