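import Mathlib

/-!
# Block E8-FPF: a compact Lie algebra with a fixed point free automorphism of prime order is abelian

`V` a finite dimensional real Lie algebra with a positive definite invariant symmetric form `B`, `σ` an automorphism with
`σ^p = 1` (`p` prime), which preserves `B` and has no non-zero fixed vector. Then `V` is abelian.

Proof. Let `ζ = exp (2 π i / p)`, `V_C = ℂ ⊗ V` with the complex bilinear extension of the bracket and of `B`, the
conjugation `conj` and the hermitian form `H(u, v) = B(u, conj v)`, positive definite. For `i ∈ Z/p` let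
`V_i = {u ∈ V_C : σ u = ζ^i u}`; `V_C = ⊕ V_i` (`P_i = (1/p) ∑_k ζ^(-ik) σ^k`), `V_0 = 0` by assumption, `[V_i, V_j] ⊆ V_(i+j)`,
`conj V_i = V_(-i)`. Let `x ∈ V_i`, `i ≠ 0`. (a) `ad x` is nilpotent: for `u ∈ V_j` there is `k < p` with `j + k i = 0`,
so `(ad x)^k u ∈ V_0 = 0`; hence `(ad x)^p = 0`. (b) `[x, conj x] ∈ V_0 = 0`, so `ad x` and `ad (conj x)` commute; and
`H([x, u], v) = B([x, u], conj v) = - B(u, [x, conj v]) = - H(u, [conj x, v])`: the adjoint of `ad x` is `- ad (conj x)`,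
so `ad x` is normal. Normal and nilpotent: `ad x = 0` (`N^*N` is self-adjoint and nilpotent as `N`, `N^*` commute, so
`N^* N = 0`, `H(N u, N u) = 0`). So all `x ∈ V_i` are central, `V_C` is abelian, `V` is abelian.
Without tensor products one can realise `V_C` as pairs `V × V`; or use Mathlib's `ℂ ⊗[ℝ] V`.
-/

set_option autoImplicit false

namespace Pool.Agent.Helper73.E8

open TensorProduct

section aux

variable {V : Type*} [LieRing V] [LieAlgebra ℝ V]

private noncomputable def h99_re : LinearMap.BilinForm ℝ ℂ :=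
  LinearMap.mk₂ ℝ (fun z w => (z * (starRingEnd ℂ) w).re)
    (fun a b c => by rw [add_mul, Complex.add_re])
    (fun r a b => by rw [smul_mul_assoc, Complex.smul_re])
    (fun a b c => by rw [map_add, mul_add, Complex.add_re])
    (fun r a b => by
      rw [Complex.real_smul, map_mul, Complex.conj_ofReal, mul_left_comm, ← Complex.real_smul,
        Complex.smul_re])

private lemma h99_re_apply (z w : ℂ) : h99_re z w = (z * (starRingEnd ℂ) w).re := rfl

private noncomputable def h99_H (B : LinearMap.BilinForm ℝ V) :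
    LinearMap.BilinForm ℝ (ℂ ⊗[ℝ] V) :=
  LinearMap.BilinForm.tensorDistrib ℝ ℝ (h99_re ⊗ₜ[ℝ] B)

private lemma h99_H_tmul (B : LinearMap.BilinForm ℝ V) (z w : ℂ) (a b : V) :
    h99_H B (z ⊗ₜ[ℝ] a) (w ⊗ₜ[ℝ] b) = B a b * (z * (starRingEnd ℂ) w).re := by
  unfold h99_H
  rw [LinearMap.BilinForm.tensorDistrib_tmul, h99_re_apply, smul_eq_mul]

private lemma h99_split (u : ℂ ⊗[ℝ] V) :
    ∃ a b : V, u = (1 : ℂ) ⊗ₜ[ℝ] a + Complex.I ⊗ₜ[ℝ] b := by
  induction u using TensorProduct.induction_on with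
  | zero => exact ⟨0, 0, by simp⟩
  | tmul z a =>
    refine ⟨z.re • a, z.im • a, ?_⟩
    rw [← TensorProduct.smul_tmul, ← TensorProduct.smul_tmul, ← TensorProduct.add_tmul]
    congr 1
    rw [Complex.real_smul, Complex.real_smul, mul_one]
    exact (Complex.re_add_im z).symm
  | add u v hu hv =>
    obtain ⟨a, b, rfl⟩ := hu
    obtain ⟨c, d, rfl⟩ := hv
    refine ⟨a + c, b + d, ?_⟩
    rw [TensorProduct.tmul_add, TensorProduct.tmul_add]
    abel

private lemma h99_pos (B : LinearMap.BilinForm ℝ V) (hpos : ∀ x : V, x ≠ 0 → 0 < B x x)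
    {u : ℂ ⊗[ℝ] V} (h : h99_H B u u = 0) : u = 0 := by
  obtain ⟨a, b, rfl⟩ := h99_split u
  have h1 : ∀ x : V, 0 ≤ B x x := by
    intro x
    by_cases hx : x = 0
    · rw [hx]; simp
    · exact (hpos x hx).le
  simp only [map_add, LinearMap.add_apply, h99_H_tmul, map_one, mul_one, one_mul, Complex.one_re,
    Complex.conj_I, Complex.neg_re, Complex.I_re, neg_zero, mul_zero, add_zero, zero_add,
    mul_neg, Complex.I_mul_I, neg_neg] at h
  have ha : a = 0 := by
    by_contra hx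
    have := hpos a hx
    linarith [h1 b]
  have hb : b = 0 := by
    by_contra hx
    have := hpos b hx
    linarith [h1 a]
  rw [ha, hb, TensorProduct.tmul_zero, TensorProduct.tmul_zero, add_zero]

/-- the adjoint action of the complexification -/
private noncomputable def h99_ad : (ℂ ⊗[ℝ] V) →ₗ[ℂ] Module.End ℂ (ℂ ⊗[ℝ] V) :=
  LinearMap.mk₂ ℂ (fun x y : ℂ ⊗[ℝ] V => ⁅x, y⁆) (fun a b c => add_lie a b c)
    (fun r a b => smul_lie r a b) (fun a b c => lie_add a b c) (fun r a b => lie_smul r a b)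

private lemma h99_ad_tmul (z w : ℂ) (a b : V) :
    h99_ad (z ⊗ₜ[ℝ] a) (w ⊗ₜ[ℝ] b) = (z * w) ⊗ₜ[ℝ] ⁅a, b⁆ := rfl

private lemma h99_jac (x y u : ℂ ⊗[ℝ] V) :
    h99_ad x (h99_ad y u) = h99_ad (h99_ad x y) u + h99_ad y (h99_ad x u) :=
  leibniz_lie x y u

private lemma h99_adj0 (B : LinearMap.BilinForm ℝ V)
    (hinv : ∀ x y z : V, B ⁅x, y⁆ z = -B y ⁅x, z⁆) (z : ℂ) (a : V) (u v : ℂ ⊗[ℝ] V) :
    h99_H B (h99_ad (z ⊗ₜ[ℝ] a) u) v = -h99_H B u (h99_ad (((starRingEnd ℂ) z) ⊗ₜ[ℝ] a) v) := by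
  induction u using TensorProduct.induction_on with
  | zero => rw [map_zero, map_zero, LinearMap.zero_apply, LinearMap.zero_apply, neg_zero]
  | add u u' hu hu' =>
    rw [map_add, map_add, LinearMap.add_apply, hu, hu', map_add, LinearMap.add_apply, neg_add]
  | tmul w b =>
    induction v using TensorProduct.induction_on with
    | zero => rw [map_zero, map_zero, map_zero, neg_zero]
    | add v v' hv hv' => rw [map_add, hv, hv', map_add, map_add, neg_add]
    | tmul t c =>
      rw [h99_ad_tmul, h99_ad_tmul, h99_H_tmul, h99_H_tmul, hinv, map_mul, Complex.conj_conj]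
      rw [show z * w * (starRingEnd ℂ) t = w * (z * (starRingEnd ℂ) t) by ring]
      ring

private noncomputable def h99_x (σ : V →ₗ[ℝ] V) (p : ℕ) (ω : ℂ) (x : V) : ℂ ⊗[ℝ] V :=
  ∑ k ∈ Finset.range p, (ω ^ k) ⊗ₜ[ℝ] (σ^[k] x)

private lemma h99_adj (B : LinearMap.BilinForm ℝ V)
    (hinv : ∀ x y z : V, B ⁅x, y⁆ z = -B y ⁅x, z⁆) (σ : V →ₗ[ℝ] V) (p : ℕ) (ω : ℂ) (x : V)
    (u v : ℂ ⊗[ℝ] V) :
    h99_H B (h99_ad (h99_x σ p ω x) u) v =
      -h99_H B u (h99_ad (h99_x σ p ((starRingEnd ℂ) ω) x) v) := by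
  unfold h99_x
  rw [map_sum, map_sum, LinearMap.sum_apply, map_sum, LinearMap.sum_apply, LinearMap.sum_apply,
    map_sum, ← Finset.sum_neg_distrib]
  refine Finset.sum_congr rfl fun k _ => ?_
  rw [h99_adj0 B hinv, map_pow]

/-- the complexification of the automorphism -/
private noncomputable def h99_S (σ : V →ₗ[ℝ] V) : Module.End ℂ (ℂ ⊗[ℝ] V) :=
  LinearMap.baseChange ℂ σ

private lemma h99_S_tmul (σ : V →ₗ[ℝ] V) (z : ℂ) (a : V) :
    h99_S σ (z ⊗ₜ[ℝ] a) = z ⊗ₜ[ℝ] σ a := rfl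

private lemma h99_S_ad (σ : V →ₗ[ℝ] V) (hσ : ∀ x y : V, σ ⁅x, y⁆ = ⁅σ x, σ y⁆)
    (u v : ℂ ⊗[ℝ] V) : h99_S σ (h99_ad u v) = h99_ad (h99_S σ u) (h99_S σ v) := by
  induction u using TensorProduct.induction_on with
  | zero => rw [map_zero, LinearMap.zero_apply, map_zero, map_zero, LinearMap.zero_apply]
  | add u u' hu hu' =>
    rw [map_add, LinearMap.add_apply, map_add, hu, hu', map_add, map_add, LinearMap.add_apply]
  | tmul w b =>
    induction v using TensorProduct.induction_on with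
    | zero => rw [map_zero, map_zero, map_zero]
    | add v v' hv hv' => rw [map_add, map_add, hv, hv', map_add, map_add]
    | tmul t c => rw [h99_ad_tmul, h99_S_tmul, h99_S_tmul, h99_S_tmul, h99_ad_tmul, hσ]

private lemma h99_sum_S (σ : V →ₗ[ℝ] V) (p : ℕ) (h : ∀ x : V, ∑ m ∈ Finset.range p, σ^[m] x = 0) :
    ∑ m ∈ Finset.range p, (h99_S σ) ^ m = 0 := by
  have hS : ∀ (m : ℕ) (z : ℂ) (a : V), ((h99_S σ) ^ m) (z ⊗ₜ[ℝ] a) = z ⊗ₜ[ℝ] (σ^[m] a) := by
    intro m z a
    induction m with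
    | zero => rfl
    | succ m ih => rw [pow_succ', Module.End.mul_apply, ih, h99_S_tmul, Function.iterate_succ_apply']
  refine LinearMap.ext fun u => ?_
  rw [LinearMap.sum_apply, LinearMap.zero_apply]
  induction u using TensorProduct.induction_on with
  | zero => simp
  | add u u' hu hu' => simp only [map_add, Finset.sum_add_distrib, hu, hu', add_zero]
  | tmul z a =>
    simp only [hS]
    rw [← TensorProduct.tmul_sum, h, TensorProduct.tmul_zero]

private lemma h99_geom {p : ℕ} (hp : p.Prime) {ω : ℂ} (h1 : ω ^ p = 1) (h2 : ω ≠ 1) {m : ℕ}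
    (hm : 0 < m) (hmp : m < p) : ∑ k ∈ Finset.range p, ω ^ (k * m) = 0 := by
  have h3 : ω ^ m ≠ 1 := by
    intro h
    have hf : Fact p.Prime := ⟨hp⟩
    have h4 : orderOf ω = p := orderOf_eq_prime h1 h2
    have h5 := orderOf_dvd_of_pow_eq_one h
    rw [h4] at h5
    exact absurd (Nat.le_of_dvd hm h5) (not_le.2 hmp)
  have h4 : (∑ k ∈ Finset.range p, (ω ^ m) ^ k) * (ω ^ m - 1) = (ω ^ m) ^ p - 1 :=
    geom_sum_mul (ω ^ m) p
  rw [← pow_mul, mul_comm m p, pow_mul, h1, one_pow, sub_self] at h4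
  have h5 := (mul_eq_zero.1 h4).resolve_right (sub_ne_zero.2 h3)
  rw [← h5]
  refine Finset.sum_congr rfl fun k _ => ?_
  rw [← pow_mul, mul_comm]

/-- the operator is nilpotent -/
private lemma h99_nil {E : Type*} [AddCommGroup E] [Module ℂ E] {p : ℕ} (hp : p.Prime) {ω : ℂ}
    (h1 : ω ^ p = 1) (h2 : ω ≠ 1) (S T : Module.End ℂ E) (hST : T * S = ω • (S * T))
    (hS : ∑ m ∈ Finset.range p, S ^ m = 0) : T ^ (p - 1) = 0 := by
  have h3 : ∀ k : ℕ, T ^ k * S = ω ^ k • (S * T ^ k) := by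
    intro k
    induction k with
    | zero => simp
    | succ k ih =>
      rw [pow_succ, mul_assoc, hST, mul_smul_comm, ← mul_assoc, ih, smul_mul_assoc, smul_smul,
        mul_assoc, ← pow_succ, mul_comm, ← pow_succ]
  have h4 : ∀ k m : ℕ, T ^ k * S ^ m = ω ^ (k * m) • (S ^ m * T ^ k) := by
    intro k m
    induction m with
    | zero => simp
    | succ m ih =>
      rw [pow_succ, ← mul_assoc, ih, smul_mul_assoc, mul_assoc, h3, mul_smul_comm, smul_smul,
        ← mul_assoc, ← pow_add]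
      congr 1
  have h5 : ∀ k ∈ Finset.range p,
      ∑ m ∈ Finset.range p, ω ^ (k * m) • (S ^ m * T ^ (p - 1)) = 0 := by
    intro k hk
    have hk' : k + (p - 1 - k) = p - 1 := by
      have := Finset.mem_range.1 hk
      omega
    have h6 : T ^ k * (∑ m ∈ Finset.range p, S ^ m) * T ^ (p - 1 - k) = 0 := by
      rw [hS, mul_zero, zero_mul]
    rw [Finset.mul_sum, Finset.sum_mul] at h6
    rw [← h6]
    refine Finset.sum_congr rfl fun m _ => ?_
    rw [h4, smul_mul_assoc, mul_assoc, ← pow_add, hk']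
  have h6 := Finset.sum_eq_zero h5
  rw [Finset.sum_comm] at h6
  simp only [← Finset.sum_smul] at h6
  rw [Finset.sum_eq_single 0] at h6
  · simp only [mul_zero, pow_zero, Finset.sum_const, Finset.card_range, one_mul] at h6
    have h7 : ((p : ℕ) • (1 : ℂ)) ≠ 0 := by
      rw [nsmul_eq_mul, mul_one]
      exact_mod_cast hp.pos.ne'
    exact (smul_eq_zero.1 h6).resolve_left h7
  · intro m hm hm0
    rw [h99_geom hp h1 h2 (Nat.pos_of_ne_zero hm0) (Finset.mem_range.1 hm), zero_smul]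
  · intro h
    exact absurd (Finset.mem_range.2 hp.pos) h

/-- a nilpotent normal operator vanishes -/
private lemma h99_normal {E : Type*} [AddCommGroup E] [Module ℂ E] [Module ℝ E]
    (H : LinearMap.BilinForm ℝ E) (hH : ∀ u, H u u = 0 → u = 0) (T T' : Module.End ℂ E)
    (hadj : ∀ u v, H (T u) v = -H u (T' v)) (hadj' : ∀ u v, H (T' u) v = -H u (T v))
    (hcomm : ∀ u, T (T' u) = T' (T u)) (n : ℕ) (hn : T ^ (n + 1) = 0) : T = 0 := by
  induction n with
  | zero => rwa [zero_add, pow_one] at hn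
  | succ n ih =>
    apply ih
    refine LinearMap.ext fun u => ?_
    rw [LinearMap.zero_apply, pow_succ', Module.End.mul_apply]
    set w := (T ^ n) u with hw
    have h1 : T (T w) = 0 := by
      have h2 : (T ^ (n + 1 + 1)) u = 0 := by rw [hn, LinearMap.zero_apply]
      rwa [pow_succ', pow_succ', Module.End.mul_apply, Module.End.mul_apply, ← hw] at h2
    have h2 : T' (T w) = 0 := by
      apply hH
      rw [hadj', hcomm, ← neg_eq_zero, neg_neg, ← neg_eq_zero, ← hadj, h1]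
      simp
    apply hH
    rw [hadj, h2]
    simp

end aux

theorem lie_eq_zero_of_fixedPointFree {V : Type*} [LieRing V] [LieAlgebra ℝ V] [FiniteDimensional ℝ V]
    (B : LinearMap.BilinForm ℝ V) (hsymm : ∀ x y : V, B x y = B y x) (hpos : ∀ x : V, x ≠ 0 → 0 < B x x)
    (hinv : ∀ x y z : V, B ⁅x, y⁆ z = -B y ⁅x, z⁆) (σ : V →ₗ[ℝ] V) (hσ : ∀ x y : V, σ ⁅x, y⁆ = ⁅σ x, σ y⁆)
    (p : ℕ) (hp : p.Prime) (hσp : ∀ x, σ^[p] x = x) (hB : ∀ x y, B (σ x) (σ y) = B x y)
    (hfix : ∀ x, σ x = x → x = 0) (x y : V) : ⁅x, y⁆ = 0 := by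
  classical
  have hsum : ∀ a : V, ∑ m ∈ Finset.range p, σ^[m] a = 0 := by
    intro a
    apply hfix
    rw [map_sum]
    have h1 : ∀ m, σ (σ^[m] a) = σ^[m + 1] a := fun m => (Function.iterate_succ_apply' σ m a).symm
    simp only [h1]
    have h2 := Finset.sum_range_succ (fun m => σ^[m] a) p
    rw [Finset.sum_range_succ' (fun m => σ^[m] a) p, hσp] at h2
    exact add_right_cancel h2
  have hN := h99_sum_S σ p hsum
  -- fixed vectors of the complexification
  have hfixC : ∀ u : ℂ ⊗[ℝ] V, h99_S σ u = u → u = 0 := by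
    intro u hu
    have h1 : ∀ m : ℕ, ((h99_S σ) ^ m) u = u := by
      intro m
      induction m with
      | zero => rfl
      | succ m ih => rw [pow_succ', Module.End.mul_apply, ih, hu]
    have h2 := congrArg (fun A : Module.End ℂ (ℂ ⊗[ℝ] V) => A u) hN
    simp only [LinearMap.sum_apply, h1, Finset.sum_const, Finset.card_range,
      LinearMap.zero_apply] at h2
    rw [← Nat.cast_smul_eq_nsmul ℂ] at h2
    exact (smul_eq_zero.1 h2).resolve_left (by exact_mod_cast hp.pos.ne')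
  -- the eigenvectors
  have hSx : ∀ ω : ℂ, ω ^ p = 1 → ω • h99_S σ (h99_x σ p ω x) = h99_x σ p ω x := by
    intro ω hω
    unfold h99_x
    rw [map_sum, Finset.smul_sum]
    have h1 : ∀ k, ω • h99_S σ ((ω ^ k) ⊗ₜ[ℝ] (σ^[k] x)) = (ω ^ (k + 1)) ⊗ₜ[ℝ] (σ^[k + 1] x) := by
      intro k
      rw [h99_S_tmul, TensorProduct.smul_tmul', smul_eq_mul, ← pow_succ', Function.iterate_succ_apply']
    simp only [h1]
    have h2 := Finset.sum_range_succ (fun k => (ω ^ k) ⊗ₜ[ℝ] (σ^[k] x)) p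
    rw [Finset.sum_range_succ' (fun k => (ω ^ k) ⊗ₜ[ℝ] (σ^[k] x)) p, hω, hσp] at h2
    exact add_right_cancel h2
  have hkey : ∀ ω : ℂ, ω ^ p = 1 → h99_ad (h99_x σ p ω x) = 0 := by
    intro ω hω
    have hω0 : ω ≠ 0 := by
      rintro rfl
      rw [zero_pow hp.pos.ne'] at hω
      exact zero_ne_one hω
    by_cases h1 : ω = 1
    · have h2 : h99_x σ p ω x = 0 := by
        unfold h99_x
        rw [h1]
        simp only [one_pow]
        rw [← TensorProduct.tmul_sum, hsum, TensorProduct.tmul_zero]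
      rw [h2, map_zero]
    · set X := h99_x σ p ω x with hX
      set X' := h99_x σ p ((starRingEnd ℂ) ω) x with hX'
      have hω' : (starRingEnd ℂ) ω ^ p = 1 := by rw [← map_pow, hω, map_one]
      have hωω : ω * (starRingEnd ℂ) ω = 1 := by
        rw [Complex.mul_conj, Complex.normSq_eq_norm_sq,
          Complex.norm_eq_one_of_pow_eq_one hω hp.pos.ne']
        simp
      have hSX := hSx ω hω
      have hSX' := hSx _ hω'
      rw [← hX] at hSX
      rw [← hX'] at hSX'
      have hbr : h99_ad X X' = 0 := by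
        apply hfixC
        conv_rhs => rw [← hSX, ← hSX']
        rw [h99_S_ad σ hσ, map_smul, map_smul, LinearMap.smul_apply, smul_smul, mul_comm, hωω, one_smul]
      have hbr' : h99_ad X' X = 0 := by
        have h2 : h99_ad X' X = -h99_ad X X' := (lie_skew X' X).symm
        rw [h2, hbr, neg_zero]
      obtain ⟨n, hn⟩ : ∃ n, p - 1 = n + 1 := ⟨p - 2, by have := hp.two_le; omega⟩
      apply h99_normal (h99_H B) (fun u hu => h99_pos B hpos hu) (h99_ad X) (h99_ad X')
        (h99_adj B hinv σ p ω x) ?_ ?_ n ?_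
      · intro u v
        have h2 := h99_adj B hinv σ p ((starRingEnd ℂ) ω) x u v
        rw [Complex.conj_conj] at h2
        exact h2
      · intro u
        rw [h99_jac, hbr, map_zero, LinearMap.zero_apply, zero_add]
      · rw [← hn]
        apply h99_nil hp hω h1 (h99_S σ) _ _ hN
        refine LinearMap.ext fun u => ?_
        rw [Module.End.mul_apply, LinearMap.smul_apply, Module.End.mul_apply, h99_S_ad σ hσ]
        conv_lhs => rw [← hSX]
        rw [map_smul, LinearMap.smul_apply]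
  -- the conclusion
  have hζ : IsPrimitiveRoot (Complex.exp (2 * Real.pi * Complex.I / p)) p :=
    Complex.isPrimitiveRoot_exp p hp.pos.ne'
  obtain ⟨ζ, hζ⟩ : ∃ ζ : ℂ, IsPrimitiveRoot ζ p := ⟨_, hζ⟩
  have hζ1 : ζ ≠ 1 := hζ.ne_one hp.one_lt
  have hdec : ∑ i ∈ Finset.range p, h99_x σ p (ζ ^ i) x = (p : ℂ) ⊗ₜ[ℝ] x := by
    unfold h99_x
    rw [Finset.sum_comm]
    have h1 : ∀ k, ∑ i ∈ Finset.range p, ((ζ ^ i) ^ k) ⊗ₜ[ℝ] (σ^[k] x) =
        (∑ i ∈ Finset.range p, ζ ^ (i * k)) ⊗ₜ[ℝ] (σ^[k] x) := by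
      intro k
      rw [TensorProduct.sum_tmul]
      exact Finset.sum_congr rfl fun i _ => by rw [pow_mul]
    simp only [h1]
    rw [Finset.sum_eq_single 0]
    · simp
    · intro m hm hm0
      rw [h99_geom hp hζ.pow_eq_one hζ1 (Nat.pos_of_ne_zero hm0) (Finset.mem_range.1 hm),
        TensorProduct.zero_tmul]
    · intro h
      exact absurd (Finset.mem_range.2 hp.pos) h
  have h1 : h99_ad ((p : ℂ) ⊗ₜ[ℝ] x) = 0 := by
    rw [← hdec, map_sum]
    refine Finset.sum_eq_zero fun i _ => hkey _ ?_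
    rw [← pow_mul, mul_comm, pow_mul, hζ.pow_eq_one, one_pow]
  have h2 : ((p : ℂ) * 1) ⊗ₜ[ℝ] ⁅x, y⁆ = 0 := by
    rw [← h99_ad_tmul, h1, LinearMap.zero_apply]
  have h3 := congrArg (fun u => h99_H B u u) h2
  simp only [map_zero] at h3
  rw [h99_H_tmul, mul_one, Complex.mul_conj, Complex.ofReal_re, Complex.normSq_natCast] at h3
  by_contra hxy
  have h4 := hpos _ hxy
  have h5 : (0 : ℝ) < (p : ℝ) * p := by
    have : (0 : ℝ) < p := by exact_mod_cast hp.pos
    positivity
  exact absurd h3 (mul_pos h4 h5).ne'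

end Pool.Agent.Helper73.E8
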