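import Pool.Agent.Helper73.E8.Lattice
import Pool.Agent.Helper73.E8.Cpt.CartanR
import Pool.Agent.Helper73.E8.Cpt.Fpf

/-!
# Block E8-CARTANZ: self-centralising abelian subrings of a compact form over Z

`L`, `B` as in `IsLat`, `f : ℂ ⊗ L ≃ Chev ℂ`.

* `realForm_of`: `V = ℝ ⊗ L`, `j (r ⊗ x) = r • f (1 ⊗ x)` is a compact real form (`RealForm`). For `x, y ∈ L`:
  `bf (f (1 ⊗ x)) (f (1 ⊗ y)) = - B x y` (Killing form: `killingForm_eq`, `LieModule.traceForm_baseChange`, invariance of the Killing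
  form under isomorphisms, `60 ≠ 0` in ℂ), so `bf (j v) (j w) = - B_ℝ v w`, real, negative definite. `span`, `inj`: a `Z`-basis `b_i`
  of `L` gives the complex basis `f (1 ⊗ b_i)` of `Chev ℂ`, and `∑ (r_i + i s_i) f (1 ⊗ b_i) = j (∑ r_i ⊗ b_i) + i j (∑ s_i ⊗ b_i)`.
* `exists_cartanZ`: `A = ` span over `ℝ` of `1 ⊗ C` in `ℝ ⊗ L`: abelian; self-centralising: the centraliser of `1 ⊗ C` is
  the kernel of the base change of the integer linear map `L → L^m`, `v ↦ ([c_k, v])_k` (`c_k` generators of `C`), which is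
  `ℝ ⊗ (kernel) = ℝ ⊗ C` by flatness (`Module.Flat`, `LinearMap.ker_baseChange...`; or by rank of integer matrices). Apply
  `exists_cartanR`: `dim A = 8`, and `rank C = dim A` (linearly independent integer vectors stay independent over `ℝ`); put
  `f' = φ ∘ f`.
-/

set_option autoImplicit false

open scoped TensorProduct

namespace Pool.Agent.Helper73.E8

open Chev

variable {L : Type} [LieRing L] [Module.Free ℤ L] [Module.Finite ℤ L] {B : LinearMap.BilinForm ℤ L}

theorem bf_eq_neg (hL : IsLat L B) (f : ℂ ⊗[ℤ] L ≃ₗ⁅ℂ⁆ Chev ℂ) (x y : L) :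
    bf (f (1 ⊗ₜ x)) (f (1 ⊗ₜ y)) = -((B x y : ℤ) : ℂ) := by
  have h1 : killingForm ℂ (Chev ℂ) (f (1 ⊗ₜ x)) (f (1 ⊗ₜ y)) = ((killingForm ℤ L x y : ℤ) : ℂ) := by
    rw [LieAlgebra.killingForm_of_equiv_apply f, killingForm, LieModule.traceForm_baseChange,
      LinearMap.BilinForm.baseChange_tmul, mul_one, zsmul_eq_mul, mul_one]
  rw [killingForm_eq, hL.kill] at h1
  push_cast at h1
  have h2 : (60 : ℂ) ≠ 0 := by norm_num
  apply mul_left_cancel₀ h2
  rw [h1]
  ring

private theorem lz67 {A L : Type} [CommRing A] [LieRing L] (x : A ⊗[ℤ] L) :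
    ⁅x, (0 : A ⊗[ℤ] L)⁆ = 0 := lie_zero (L := A ⊗[ℤ] L) (M := A ⊗[ℤ] L) x

private theorem zl67 {A L : Type} [CommRing A] [LieRing L] (x : A ⊗[ℤ] L) :
    ⁅(0 : A ⊗[ℤ] L), x⁆ = 0 := zero_lie (L := A ⊗[ℤ] L) (M := A ⊗[ℤ] L) x

private theorem la67 {A L : Type} [CommRing A] [LieRing L] (x y z : A ⊗[ℤ] L) :
    ⁅x, y + z⁆ = ⁅x, y⁆ + ⁅x, z⁆ := lie_add (L := A ⊗[ℤ] L) (M := A ⊗[ℤ] L) x y z

private theorem al67 {A L : Type} [CommRing A] [LieRing L] (x y z : A ⊗[ℤ] L) :
    ⁅x + y, z⁆ = ⁅x, z⁆ + ⁅y, z⁆ := add_lie (L := A ⊗[ℤ] L) (M := A ⊗[ℤ] L) x y z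

private theorem sl67 {A L : Type} [CommRing A] [LieRing L] (r : A) (x y : A ⊗[ℤ] L) :
    ⁅r • x, y⁆ = r • ⁅x, y⁆ := smul_lie (R := A) (L := A ⊗[ℤ] L) (M := A ⊗[ℤ] L) r x y

private theorem ls67 {A L : Type} [CommRing A] [LieRing L] (r : A) (x y : A ⊗[ℤ] L) :
    ⁅x, r • y⁆ = r • ⁅x, y⁆ := lie_smul (R := A) (L := A ⊗[ℤ] L) (M := A ⊗[ℤ] L) r x y

/-- The inclusion of `ℝ ⊗ L` in `ℂ ⊗ L`. -/
private noncomputable def inc67 (L : Type) [AddCommGroup L] : ℝ ⊗[ℤ] L →+ ℂ ⊗[ℤ] L :=
  (LinearMap.rTensor L Complex.ofRealHom.toAddMonoidHom.toIntLinearMap).toAddMonoidHom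

/-- The projections of `ℂ ⊗ L` to `ℝ ⊗ L`. -/
private noncomputable def re67 (L : Type) [AddCommGroup L] : ℂ ⊗[ℤ] L →+ ℝ ⊗[ℤ] L :=
  (LinearMap.rTensor L Complex.reAddGroupHom.toIntLinearMap).toAddMonoidHom

private noncomputable def im67 (L : Type) [AddCommGroup L] : ℂ ⊗[ℤ] L →+ ℝ ⊗[ℤ] L :=
  (LinearMap.rTensor L Complex.imAddGroupHom.toIntLinearMap).toAddMonoidHom

private theorem inc67_tmul {L : Type} [AddCommGroup L] (r : ℝ) (x : L) :
    inc67 L (r ⊗ₜ x) = (r : ℂ) ⊗ₜ x := rfl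

private theorem re67_tmul {L : Type} [AddCommGroup L] (c : ℂ) (x : L) :
    re67 L (c ⊗ₜ x) = c.re ⊗ₜ x := rfl

private theorem im67_tmul {L : Type} [AddCommGroup L] (c : ℂ) (x : L) :
    im67 L (c ⊗ₜ x) = c.im ⊗ₜ x := rfl

private theorem inc67_smul {L : Type} [AddCommGroup L] (r : ℝ) (v : ℝ ⊗[ℤ] L) :
    inc67 L (r • v) = (r : ℂ) • inc67 L v := by
  induction v using TensorProduct.induction_on with
  | zero => rw [smul_zero, map_zero, smul_zero]
  | tmul s x =>
    rw [TensorProduct.smul_tmul', inc67_tmul, inc67_tmul, TensorProduct.smul_tmul', smul_eq_mul,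
      smul_eq_mul, Complex.ofReal_mul]
  | add v w hv hw => rw [smul_add, _root_.map_add, hv, hw, _root_.map_add, smul_add]

private theorem inc67_lie {L : Type} [LieRing L] (v w : ℝ ⊗[ℤ] L) :
    inc67 L ⁅v, w⁆ = ⁅inc67 L v, inc67 L w⁆ := by
  induction v using TensorProduct.induction_on with
  | zero => rw [zl67, map_zero, zl67]
  | add v v' hv hv' => rw [al67, _root_.map_add, hv, hv', _root_.map_add, al67]
  | tmul s x =>
    induction w using TensorProduct.induction_on with
    | zero => rw [lz67, map_zero, lz67]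
    | add w w' hw hw' => rw [la67, _root_.map_add, hw, hw', _root_.map_add, la67]
    | tmul t y =>
      rw [LieAlgebra.ExtendScalars.bracket_tmul, inc67_tmul, inc67_tmul, inc67_tmul,
        LieAlgebra.ExtendScalars.bracket_tmul, Complex.ofReal_mul]

private theorem inc67_inj {L : Type} [AddCommGroup L] (a b : ℝ ⊗[ℤ] L)
    (h : inc67 L a + Complex.I • inc67 L b = 0) : a = 0 ∧ b = 0 := by
  have r1 : ∀ v, re67 L (inc67 L v) = v := by
    intro v
    induction v using TensorProduct.induction_on with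
    | zero => rw [map_zero, map_zero]
    | add v w hv hw => rw [_root_.map_add, _root_.map_add, hv, hw]
    | tmul s x => rw [inc67_tmul, re67_tmul, Complex.ofReal_re]
  have r2 : ∀ v, re67 L (Complex.I • inc67 L v) = 0 := by
    intro v
    induction v using TensorProduct.induction_on with
    | zero => rw [map_zero, smul_zero, map_zero]
    | add v w hv hw => rw [_root_.map_add, smul_add, _root_.map_add, hv, hw, add_zero]
    | tmul s x =>
      have e : (Complex.I • (s : ℂ)).re = 0 := by simp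
      rw [inc67_tmul, TensorProduct.smul_tmul', re67_tmul, e, TensorProduct.zero_tmul]
  have i1 : ∀ v, im67 L (inc67 L v) = 0 := by
    intro v
    induction v using TensorProduct.induction_on with
    | zero => rw [map_zero, map_zero]
    | add v w hv hw => rw [_root_.map_add, _root_.map_add, hv, hw, add_zero]
    | tmul s x => rw [inc67_tmul, im67_tmul, Complex.ofReal_im, TensorProduct.zero_tmul]
  have i2 : ∀ v, im67 L (Complex.I • inc67 L v) = v := by
    intro v
    induction v using TensorProduct.induction_on with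
    | zero => rw [map_zero, smul_zero, map_zero]
    | add v w hv hw => rw [_root_.map_add, smul_add, _root_.map_add, hv, hw]
    | tmul s x =>
      have e : (Complex.I • (s : ℂ)).im = s := by simp
      rw [inc67_tmul, TensorProduct.smul_tmul', im67_tmul, e]
  constructor
  · have h1 := congrArg (re67 L) h
    rwa [_root_.map_add, r1, r2, add_zero, map_zero] at h1
  · have h1 := congrArg (im67 L) h
    rwa [_root_.map_add, i1, i2, zero_add, map_zero] at h1

private theorem inc67_span {L : Type} [AddCommGroup L] (z : ℂ ⊗[ℤ] L) :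
    ∃ a b, z = inc67 L a + Complex.I • inc67 L b := by
  induction z using TensorProduct.induction_on with
  | zero => exact ⟨0, 0, by rw [map_zero, smul_zero, add_zero]⟩
  | add z w hz hw =>
    obtain ⟨a, b, rfl⟩ := hz
    obtain ⟨a', b', rfl⟩ := hw
    refine ⟨a + a', b + b', ?_⟩
    rw [_root_.map_add, _root_.map_add, smul_add]
    abel
  | tmul c x =>
    refine ⟨c.re ⊗ₜ x, c.im ⊗ₜ x, ?_⟩
    rw [inc67_tmul, inc67_tmul, TensorProduct.smul_tmul', ← TensorProduct.add_tmul, smul_eq_mul,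
      mul_comm, Complex.re_add_im]

theorem realForm_of (hL : IsLat L B) (f : ℂ ⊗[ℤ] L ≃ₗ⁅ℂ⁆ Chev ℂ) :
    ∃ j : ℝ ⊗[ℤ] L → Chev ℂ, RealForm j ∧ ∀ x : L, j (1 ⊗ₜ x) = f (1 ⊗ₜ x) := by
  have hbf : ∀ v w : ℝ ⊗[ℤ] L, bf (f (inc67 L v)) (f (inc67 L w)) =
      -((B.baseChange ℝ v w : ℝ) : ℂ) := by
    intro v w
    induction v using TensorProduct.induction_on with
    | zero =>
      rw [map_zero, map_zero, map_zero, LinearMap.zero_apply]
      have h0 := bf_smul_left (0 : ℂ) 0 (f (inc67 L w))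
      rw [zero_smul, zero_mul] at h0
      rw [h0]
      simp
    | add v v' hv hv' =>
      rw [_root_.map_add, _root_.map_add, bf_add_left, hv, hv', _root_.map_add, LinearMap.add_apply]
      push_cast
      ring
    | tmul s x =>
      induction w using TensorProduct.induction_on with
      | zero =>
        rw [map_zero, map_zero, map_zero]
        have h0 := bf_smul_right (0 : ℂ) (f (inc67 L (s ⊗ₜ[ℤ] x))) 0
        rw [zero_smul, zero_mul] at h0
        rw [h0]
        simp
      | add w w' hw hw' =>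
        rw [_root_.map_add, _root_.map_add, bf_add_right, hw, hw', _root_.map_add]
        push_cast
        ring
      | tmul t y =>
        have e : ∀ (s : ℝ) (x : L), f (inc67 L (s ⊗ₜ[ℤ] x)) = (s : ℂ) • f (1 ⊗ₜ x) := by
          intro s x
          rw [inc67_tmul, ← _root_.map_smul, TensorProduct.smul_tmul', smul_eq_mul, mul_one]
        rw [e, e, bf_smul_left, bf_smul_right, bf_eq_neg hL, LinearMap.BilinForm.baseChange_tmul,
          zsmul_eq_mul]
        push_cast
        ring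
  refine ⟨fun v => f (inc67 L v), ⟨?_, ?_, ?_, ?_, ?_, ?_, ?_⟩, ?_⟩
  · intro x y
    rw [_root_.map_add, _root_.map_add]
  · intro r x
    rw [inc67_smul, _root_.map_smul]
  · intro x y
    rw [inc67_lie, LieEquiv.map_lie]
  · intro y
    obtain ⟨a, b, h⟩ := inc67_span (f.symm y)
    refine ⟨a, b, ?_⟩
    rw [← _root_.map_smul, ← _root_.map_add, ← h, LieEquiv.apply_symm_apply]
  · intro a b h
    rw [← _root_.map_smul, ← _root_.map_add] at h
    apply inc67_inj
    have h1 : f.symm (f (inc67 L a + Complex.I • inc67 L b)) = 0 := by rw [h, map_zero]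
    rwa [LieEquiv.symm_apply_apply] at h1
  · intro x y
    rw [hbf]
    simp
  · intro x hx
    rw [hbf, Complex.neg_re, Complex.ofReal_re, neg_lt_zero]
    exact hL.pos x hx
  · intro x
    change f (inc67 L (1 ⊗ₜ x)) = _
    rw [inc67_tmul, Complex.ofReal_one]

/-- The centraliser of `1 ⊗ C`. -/
private theorem cent67 {L : Type} [LieRing L] [Module.Free ℤ L] [Module.Finite ℤ L]
    (C : Submodule ℤ L) (hC : ∀ x ∈ C, ∀ y ∈ C, ⁅x, y⁆ = 0)
    (hself : ∀ v, (∀ x ∈ C, ⁅x, v⁆ = 0) → v ∈ C) (v : ℝ ⊗[ℤ] L)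
    (hv : ∀ x ∈ C, ⁅(1 : ℝ) ⊗ₜ[ℤ] x, v⁆ = 0) : v ∈ C.baseChange ℝ := by
  classical
  obtain ⟨S, hS⟩ : C.FG := IsNoetherian.noetherian C
  let T : L →ₗ[ℤ] (S → L) := LinearMap.pi fun c : S => (LieModule.toEnd ℤ L L c.1)
  have hT : ∀ (y : L) (c : S), T y c = ⁅c.1, y⁆ := fun y c => rfl
  have hex : Function.Exact C.subtype T := by
    intro y
    constructor
    · intro hy
      have h1 : ∀ x ∈ C, ⁅x, y⁆ = 0 := by
        intro x hx
        rw [← hS] at hx
        induction hx using Submodule.span_induction with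
        | zero => exact zero_lie y
        | add a b _ _ ha hb => rw [add_lie, ha, hb, add_zero]
        | smul n a _ ha => rw [smul_lie, ha, smul_zero]
        | mem c hc =>
          have h2 := congrFun hy ⟨c, hc⟩
          rwa [hT] at h2
      exact ⟨⟨y, hself y h1⟩, rfl⟩
    · rintro ⟨z, rfl⟩
      funext c
      rw [hT]
      have hc : c.1 ∈ C := by
        rw [← hS]
        exact Submodule.subset_span c.2
      exact hC _ hc _ z.2
  have hex2 := Module.Flat.lTensor_exact ℝ hex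
  have h3 : T.lTensor ℝ v = 0 := by
    apply (TensorProduct.piRight ℤ ℤ ℝ (fun _ : S => L)).injective
    rw [map_zero, TensorProduct.piRight_apply]
    funext c
    have h4 : ∀ w : ℝ ⊗[ℤ] L, TensorProduct.piRightHom ℤ ℤ ℝ (fun _ : S => L) (T.lTensor ℝ w) c =
        ⁅(1 : ℝ) ⊗ₜ[ℤ] c.1, w⁆ := by
      intro w
      induction w using TensorProduct.induction_on with
      | zero =>
        rw [map_zero, map_zero, lz67]
        rfl
      | add a b ha hb =>
        rw [_root_.map_add, _root_.map_add, la67, ← ha, ← hb]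
        rfl
      | tmul s y =>
        rw [LinearMap.lTensor_tmul, TensorProduct.piRightHom_tmul,
          LieAlgebra.ExtendScalars.bracket_tmul, one_mul]
        rfl
    rw [h4]
    apply hv
    rw [← hS]
    exact Submodule.subset_span c.2
  obtain ⟨z, hz⟩ := (hex2 v).mp h3
  refine ⟨z, ?_⟩
  rw [← hz]
  rfl

theorem exists_cartanZ (hL : IsLat L B) (C : Submodule ℤ L) (hC : ∀ x ∈ C, ∀ y ∈ C, ⁅x, y⁆ = 0)
    (hself : ∀ v, (∀ x ∈ C, ⁅x, v⁆ = 0) → v ∈ C) :
    Module.finrank ℤ C = 8 ∧ ∃ f : ℂ ⊗[ℤ] L ≃ₗ⁅ℂ⁆ Chev ℂ, ∀ x ∈ C, (f (1 ⊗ₜ x)).x = 0 := by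
  obtain ⟨f⟩ := hL.cx
  obtain ⟨j, hj, hj1⟩ := realForm_of hL f
  have hA : ∀ x ∈ C.baseChange ℝ, ∀ y ∈ C.baseChange ℝ, ⁅x, y⁆ = 0 := by
    intro x hx y hy
    rw [Submodule.baseChange_eq_span] at hx hy
    induction hx using Submodule.span_induction with
    | zero => exact zl67 y
    | add a b _ _ ha hb => rw [al67, ha, hb, add_zero]
    | smul r a _ ha => rw [sl67, ha, smul_zero]
    | mem x hx =>
      obtain ⟨x, hx, rfl⟩ := hx
      induction hy using Submodule.span_induction with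
      | zero => exact lz67 _
      | add a b _ _ ha hb => rw [la67, ha, hb, add_zero]
      | smul r a _ ha => rw [ls67, ha, smul_zero]
      | mem y hy =>
        obtain ⟨y, hy, rfl⟩ := hy
        rw [TensorProduct.mk_apply, TensorProduct.mk_apply,
          LieAlgebra.ExtendScalars.bracket_tmul, hC x hx y hy, TensorProduct.tmul_zero]
  have hself' : ∀ v, (∀ x ∈ C.baseChange ℝ, ⁅x, v⁆ = 0) → v ∈ C.baseChange ℝ := by
    intro v hv
    exact cent67 C hC hself v fun x hx => hv _ (Submodule.tmul_mem_baseChange_of_mem _ hx)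
  obtain ⟨h1, φ, hφ⟩ := exists_cartanR j hj (C.baseChange ℝ) hA hself'
  refine ⟨?_, f.trans φ, fun x hx => ?_⟩
  · have hinj : Function.Injective (C.subtype.baseChange ℝ) := by
      have := Module.Flat.lTensor_preserves_injective_linearMap (M := ℝ) C.subtype
        C.subtype_injective
      exact this
    rw [← h1, Submodule.baseChange, LinearMap.finrank_range_of_inj hinj,
      Module.finrank_baseChange]
  · have h2 := hφ (1 ⊗ₜ x) (Submodule.tmul_mem_baseChange_of_mem _ hx)
    rw [hj1] at h2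
    exact h2

end Pool.Agent.Helper73.E8
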