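import Mathlib

/-!
# Block E8-ORD: an automorphism of order 31 of a lattice of rank < 30 is trivial

Proof. Let `V = ℚ ⊗ C`, of dimension `< 30`, `g` the induced automorphism, `g^31 = 1`. The minimal polynomial `m` of `g` over `Q`
divides `X^31 - 1 = (X - 1) Φ_31` (`Polynomial.cyclotomic_prime`, `Polynomial.cyclotomic.irreducible_rat`), has degree
`≤ dim V < 30 = deg Φ_31`, and `Φ_31` is irreducible, so `m` is coprime to `Φ_31`, hence `m ∣ X - 1`: `g = 1` on `V`, and on `C` because
`C → ℚ ⊗ C` is injective. (Or with integer matrices.)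
-/

set_option autoImplicit false

namespace Pool.Agent.Helper73.E8

open Polynomial in
private theorem matrix_order31_50 {n : ℕ} (hn : n < 30) (A : Matrix (Fin n) (Fin n) ℚ)
    (hA : A ^ 31 = 1) : A = 1 := by
  have hp : Fact (Nat.Prime 31) := ⟨by norm_num⟩
  have h1 : minpoly ℚ A ∣ cyclotomic 31 ℚ * (X - 1) := by
    rw [cyclotomic_prime_mul_X_sub_one]
    apply minpoly.dvd
    rw [map_sub, map_pow, aeval_X, map_one, hA, sub_self]
  have h2 : (minpoly ℚ A).natDegree ≤ n := by
    have h3 : minpoly ℚ A ∣ A.charpoly := minpoly.dvd ℚ A (Matrix.aeval_self_charpoly A)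
    have h4 := natDegree_le_of_dvd h3 (Matrix.charpoly_monic A).ne_zero
    rwa [Matrix.charpoly_natDegree_eq_dim, Fintype.card_fin] at h4
  have h5 : minpoly ℚ A ≠ 0 := by
    intro h0
    have h6 : minpoly ℚ A ∣ A.charpoly := minpoly.dvd ℚ A (Matrix.aeval_self_charpoly A)
    rw [h0, zero_dvd_iff] at h6
    exact (Matrix.charpoly_monic A).ne_zero h6
  have h6 : Irreducible (cyclotomic 31 ℚ) := cyclotomic.irreducible_rat (by norm_num)
  have h7 : ¬ cyclotomic 31 ℚ ∣ minpoly ℚ A := by
    intro hd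
    have h8 := natDegree_le_of_dvd hd h5
    rw [natDegree_cyclotomic, Nat.totient_prime hp.out] at h8
    omega
  have h8 : IsCoprime (cyclotomic 31 ℚ) (minpoly ℚ A) := (Irreducible.coprime_iff_not_dvd h6).mpr h7
  have h9 : minpoly ℚ A ∣ X - 1 := h8.symm.dvd_of_dvd_mul_left h1
  have h10 : aeval A (X - 1 : ℚ[X]) = 0 := (minpoly.dvd_iff).mp h9
  rw [map_sub, aeval_X, map_one, sub_eq_zero] at h10
  exact h10

theorem eq_of_order31 {C : Type*} [AddCommGroup C] [Module.Free ℤ C] [Module.Finite ℤ C] (h : Module.finrank ℤ C < 30)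
    (g : C →ₗ[ℤ] C) (hg : ∀ x, g^[31] x = x) (x : C) : g x = x := by
  let b := Module.finBasis ℤ C
  have h1 : g ^ 31 = 1 := by
    ext y
    rw [Module.End.pow_apply]
    exact hg y
  have h2 : (LinearMap.toMatrix b b g) ^ 31 = 1 := by
    have h0 : LinearMap.toMatrix b b (g ^ 31) = (LinearMap.toMatrix b b g) ^ 31 :=
      map_pow (LinearMap.toMatrixAlgEquiv b) g 31
    rw [← h0, h1]
    exact LinearMap.toMatrix_one b
  have h3 : ((LinearMap.toMatrix b b g).map (Int.castRingHom ℚ)) ^ 31 = 1 := by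
    have := congrArg (fun M => M.map (Int.castRingHom ℚ)) h2
    simp only [Matrix.map_pow] at this
    rw [this]
    exact Matrix.map_one _ (map_zero _) (map_one _)
  have h4 := matrix_order31_50 h _ h3
  have h5 : LinearMap.toMatrix b b g = 1 := by
    ext i j
    have h6 := congrFun (congrFun h4 i) j
    rw [Matrix.map_apply, Matrix.one_apply, eq_intCast] at h6
    rw [Matrix.one_apply]
    split_ifs at h6 ⊢
    · exact_mod_cast h6
    · exact_mod_cast h6
  have h7 : g = 1 := by
    apply (LinearMap.toMatrix b b).injective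
    rw [h5]
    exact (LinearMap.toMatrix_one b).symm
  rw [h7]
  rfl

end Pool.Agent.Helper73.E8
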