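import Pool.Agent.Helper73.E8.Cpt.CartanZ
import Pool.Agent.Helper73.E8.Cpt.Ord

/-!
# Block E8-CARTANG: a Cartan subalgebra fixed by an automorphism of order 31

`L`, `B` as in `IsLat`; `g` an automorphism of the Lie ring `L` with `g^31 = 1`. There is a submodule `D` of `L`, fixed pointwise by
`g`, abelian, self-centralising, of rank 8, and `f : ℂ ⊗ L ≃ Chev ℂ` which maps `1 ⊗ D` into the Cartan subalgebra.

Proof. `g` preserves the Killing form, hence `B`. Let `C` be a maximal element (Noetherian) of the set of submodules of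
`L^g = {x : g x = x}` with pairwise commuting elements. If `x ∈ L^g` commutes with `C` then `C + Z x` is such a submodule, so
`x ∈ C`. Let `D = {v ∈ L : [c, v] = 0 for all c ∈ C}`: a Lie subring (Jacobi), `g D = D` (`g` fixes `C`), `C ⊆ D`, `D ∩ L^g = C`.
Let `D' = {d ∈ D : B(d, c) = 0 for all c ∈ C}`. `[D, D'] ⊆ D'` (invariance: `B([d, d'], c) = - B(d', [d, c]) = 0`), so `D'` is a Lie
subring; `g D' = D'`; a `g`-fixed vector of `D'` is in `C ∩ C^⊥ = 0` (`B` definite). Consider `V = ` the real span of `D'` in `ℝ ⊗ L` (or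
`ℝ ⊗ D'`) with the form `B`, positive definite, invariant, and `σ = g`: no non-zero fixed vector (the kernel of `g - 1` on
`ℝ ⊗ D'` is `ℝ ⊗` the kernel on `D'`). `lie_eq_zero_of_fixedPointFree` (p = 31): `V` is abelian, so `D'` is abelian. For
`d ∈ D` some multiple `N d ∈ C + D'`, `N > 0` (orthogonal projection to `C` over `Q`), and `[C, D] = 0`, so for `d, e ∈ D`:
`N N' [d, e] = 0`, `L` is torsion free: `D` is abelian. If `v` commutes with `D` it commutes with `C`, so `v ∈ D`: `D` is
self-centralising. `exists_cartanZ` for `D`: rank 8 and `f`. `g` restricted to `D` satisfies `g^31 = 1`, rank `8 < 30`: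
`g = 1` on `D` (`eq_of_order31`).
-/

set_option autoImplicit false

open scoped TensorProduct

namespace Pool.Agent.Helper73.E8

open Chev

private theorem lz44 {A L : Type} [CommRing A] [LieRing L] (x : A ⊗[ℤ] L) :
    ⁅x, (0 : A ⊗[ℤ] L)⁆ = 0 := lie_zero (L := A ⊗[ℤ] L) (M := A ⊗[ℤ] L) x

private theorem zl44 {A L : Type} [CommRing A] [LieRing L] (x : A ⊗[ℤ] L) :
    ⁅(0 : A ⊗[ℤ] L), x⁆ = 0 := zero_lie (L := A ⊗[ℤ] L) (M := A ⊗[ℤ] L) x

private theorem la44 {A L : Type} [CommRing A] [LieRing L] (x y z : A ⊗[ℤ] L) :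
    ⁅x, y + z⁆ = ⁅x, y⁆ + ⁅x, z⁆ := lie_add (L := A ⊗[ℤ] L) (M := A ⊗[ℤ] L) x y z

private theorem al44 {A L : Type} [CommRing A] [LieRing L] (x y z : A ⊗[ℤ] L) :
    ⁅x + y, z⁆ = ⁅x, z⁆ + ⁅y, z⁆ := add_lie (L := A ⊗[ℤ] L) (M := A ⊗[ℤ] L) x y z

private theorem one_tmul_inj44 {M : Type} [AddCommGroup M] [Module.Free ℤ M] (x : M)
    (h : (1 : ℝ) ⊗ₜ[ℤ] x = 0) : x = 0 := by
  have h1 : Function.Injective ((Algebra.linearMap ℤ ℝ).rTensor M) :=
    Module.Flat.rTensor_preserves_injective_linearMap _ (by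
      intro a b hab
      simpa using hab)
  have h2 : (Algebra.linearMap ℤ ℝ).rTensor M (1 ⊗ₜ x) = 0 := by
    rw [LinearMap.rTensor_tmul, Algebra.linearMap_apply, map_one, h]
  have h3 : (1 : ℤ) ⊗ₜ[ℤ] x = 0 := h1 (by rw [h2, map_zero])
  have h4 := congrArg (TensorProduct.lid ℤ M) h3
  rwa [TensorProduct.lid_tmul, one_smul, map_zero] at h4

/-- The abstract form of the argument for `D'`. -/
private theorem abel_of_fpf44 {M : Type} [LieRing M] [Module.Free ℤ M] [Module.Finite ℤ M]
    (B : LinearMap.BilinForm ℤ M) (hs : ∀ x y, B x y = B y x)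
    (hi : ∀ x y z : M, B ⁅x, y⁆ z = -B y ⁅x, z⁆) (hp : ∀ x : ℝ ⊗[ℤ] M, x ≠ 0 → 0 < B.baseChange ℝ x x)
    (σ : M →ₗ[ℤ] M) (hσ : ∀ x y : M, σ ⁅x, y⁆ = ⁅σ x, σ y⁆) (h31 : ∀ x, σ^[31] x = x)
    (hB : ∀ x y, B (σ x) (σ y) = B x y) (hfix : ∀ x, σ x = x → x = 0) (x y : M) : ⁅x, y⁆ = 0 := by
  apply one_tmul_inj44
  have h0 : (1 : ℝ) ⊗ₜ[ℤ] ⁅x, y⁆ = ⁅(1 : ℝ) ⊗ₜ[ℤ] x, (1 : ℝ) ⊗ₜ[ℤ] y⁆ := by
    rw [LieAlgebra.ExtendScalars.bracket_tmul, one_mul]
  rw [h0]
  have hfd : FiniteDimensional ℝ (ℝ ⊗[ℤ] M) := inferInstance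
  refine lie_eq_zero_of_fixedPointFree (V := ℝ ⊗[ℤ] M) (B.baseChange ℝ) ?_ hp ?_ (σ.baseChange ℝ) ?_ 31
    (by norm_num) ?_ ?_ ?_ _ _
  · intro v w
    induction v using TensorProduct.induction_on with
    | zero => rw [map_zero, map_zero, LinearMap.zero_apply]
    | add v v' hv hv' => rw [_root_.map_add, _root_.map_add, LinearMap.add_apply, hv, hv']
    | tmul s x =>
      induction w using TensorProduct.induction_on with
      | zero => rw [map_zero, map_zero, LinearMap.zero_apply]
      | add w w' hw hw' => rw [_root_.map_add, _root_.map_add, LinearMap.add_apply, hw, hw']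
      | tmul t y =>
        rw [LinearMap.BilinForm.baseChange_tmul, LinearMap.BilinForm.baseChange_tmul, hs, mul_comm]
  · intro u v w
    induction u using TensorProduct.induction_on with
    | zero => rw [zl44, zl44, map_zero, LinearMap.zero_apply, map_zero, neg_zero]
    | add v v' hv hv' => rw [al44, al44, _root_.map_add, _root_.map_add, LinearMap.add_apply, hv, hv', neg_add]
    | tmul r x =>
      induction v using TensorProduct.induction_on with
      | zero => rw [lz44, map_zero, LinearMap.zero_apply, LinearMap.zero_apply, neg_zero]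
      | add v v' hv hv' =>
        rw [la44, _root_.map_add, _root_.map_add, LinearMap.add_apply, hv, hv', LinearMap.add_apply, neg_add]
      | tmul s y =>
        induction w using TensorProduct.induction_on with
        | zero => rw [lz44, map_zero, map_zero, neg_zero]
        | add w w' hw hw' => rw [la44, _root_.map_add, _root_.map_add, hw, hw', neg_add]
        | tmul t z =>
          rw [LieAlgebra.ExtendScalars.bracket_tmul, LieAlgebra.ExtendScalars.bracket_tmul,
            LinearMap.BilinForm.baseChange_tmul, LinearMap.BilinForm.baseChange_tmul, hi, neg_smul]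
          congr 2
          ring
  · intro v w
    induction v using TensorProduct.induction_on with
    | zero => rw [zl44, map_zero, zl44]
    | add v v' hv hv' => rw [al44, _root_.map_add, _root_.map_add, hv, hv', al44]
    | tmul s x =>
      induction w using TensorProduct.induction_on with
      | zero => rw [lz44, map_zero, lz44]
      | add w w' hw hw' => rw [la44, _root_.map_add, _root_.map_add, hw, hw', la44]
      | tmul t y =>
        rw [LieAlgebra.ExtendScalars.bracket_tmul, LinearMap.baseChange_tmul,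
          LinearMap.baseChange_tmul, LinearMap.baseChange_tmul,
          LieAlgebra.ExtendScalars.bracket_tmul, hσ]
  · intro v
    have h1 : ∀ n : ℕ, ∀ (s : ℝ) (x : M), (σ.baseChange ℝ)^[n] (s ⊗ₜ x) = s ⊗ₜ (σ^[n] x) := by
      intro n
      induction n with
      | zero => intro s x; rfl
      | succ n ih =>
        intro s x
        rw [Function.iterate_succ_apply, Function.iterate_succ_apply, LinearMap.baseChange_tmul, ih]
    have h2 : ∀ v, (σ.baseChange ℝ)^[31] v = ((σ.baseChange ℝ) ^ 31) v := by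
      intro v
      rw [Module.End.pow_apply]
    rw [h2]
    induction v using TensorProduct.induction_on with
    | zero => rw [map_zero]
    | add v w hv hw => rw [_root_.map_add, hv, hw]
    | tmul s x => rw [← h2, h1, h31]
  · intro v w
    induction v using TensorProduct.induction_on with
    | zero => rw [map_zero, map_zero, LinearMap.zero_apply, LinearMap.zero_apply]
    | add v v' hv hv' => rw [_root_.map_add, _root_.map_add, _root_.map_add, LinearMap.add_apply, LinearMap.add_apply, hv, hv']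
    | tmul s x =>
      induction w using TensorProduct.induction_on with
      | zero => rw [map_zero, map_zero, map_zero]
      | add w w' hw hw' => rw [_root_.map_add, _root_.map_add, _root_.map_add, hw, hw']
      | tmul t y =>
        rw [LinearMap.baseChange_tmul, LinearMap.baseChange_tmul, LinearMap.BilinForm.baseChange_tmul,
          LinearMap.BilinForm.baseChange_tmul, hB]
  · intro v hv
    have h1 : Function.Injective ((σ - LinearMap.id).lTensor ℝ) := by
      apply Module.Flat.lTensor_preserves_injective_linearMap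
      rw [← LinearMap.ker_eq_bot, LinearMap.ker_eq_bot']
      intro m hm
      apply hfix
      rw [LinearMap.sub_apply, LinearMap.id_apply, sub_eq_zero] at hm
      exact hm
    apply h1
    rw [map_zero, LinearMap.lTensor_sub, LinearMap.lTensor_id, LinearMap.sub_apply, LinearMap.id_apply, sub_eq_zero]
    exact hv

variable {L : Type} [LieRing L] [Module.Free ℤ L] [Module.Finite ℤ L] {B : LinearMap.BilinForm ℤ L}

theorem form_of_aut (hL : IsLat L B) (g : L ≃ₗ⁅ℤ⁆ L) (x y : L) : B (g x) (g y) = B x y := by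
  have h1 := LieAlgebra.killingForm_of_equiv_apply g x y
  rw [hL.kill, hL.kill] at h1
  omega

private theorem pos44 (hL : IsLat L B) (x : L) (hx : x ≠ 0) : 0 < B x x := by
  have h1 : (1 : ℝ) ⊗ₜ[ℤ] x ≠ 0 := fun h => hx (one_tmul_inj44 x h)
  have h2 := hL.pos _ h1
  rw [LinearMap.BilinForm.baseChange_tmul, mul_one, zsmul_eq_mul, mul_one] at h2
  exact_mod_cast h2

/-- Orthogonal projection. -/
private theorem proj44 (hL : IsLat L B) (C : Submodule ℤ L) (d : L) :
    ∃ N : ℤ, N ≠ 0 ∧ ∃ c ∈ C, ∀ e ∈ C, B (N • d - c) e = 0 := by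
  classical
  let b := Module.finBasis ℤ C
  let M : Matrix _ _ ℤ := Matrix.of fun i j => B (b i) (b j)
  have hdet : M.det ≠ 0 := by
    intro h0
    obtain ⟨w, hw, hMw⟩ := Matrix.exists_mulVec_eq_zero_iff.mpr h0
    have h1 : (∑ i, w i • b i : C) ≠ 0 := by
      intro h
      apply hw
      funext i
      exact Fintype.linearIndependent_iff.mp b.linearIndependent w h i
    have h2 : ((∑ i, w i • b i : C) : L) ≠ 0 := by
      intro h
      exact h1 (Subtype.ext h)
    have h3 := pos44 hL _ h2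
    have h4 : B ((∑ i, w i • b i : C) : L) ((∑ i, w i • b i : C) : L) = 0 := by
      have h5 : ∀ j, B (b j) ((∑ i, w i • b i : C) : L) = 0 := by
        intro j
        have h6 := congrFun hMw j
        rw [Matrix.mulVec, dotProduct, Pi.zero_apply] at h6
        rw [Submodule.coe_sum, map_sum, ← h6]
        refine Finset.sum_congr rfl fun i _ => ?_
        rw [Submodule.coe_smul, _root_.map_smul, smul_eq_mul, mul_comm]
        rfl
      nth_rewrite 1 [Submodule.coe_sum]
      rw [map_sum, LinearMap.sum_apply]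
      refine Finset.sum_eq_zero fun i _ => ?_
      rw [Submodule.coe_smul, _root_.map_smul, LinearMap.smul_apply, h5, smul_zero]
    omega
  refine ⟨M.det, hdet, ((∑ i, (M.adjugate.mulVec fun j => B (b j) d) i • b i : C) : L), Subtype.property _, ?_⟩
  set a := M.adjugate.mulVec fun j => B (b j) d with ha
  have hMa : M.mulVec a = M.det • fun j => B (b j) d := by
    rw [ha, Matrix.mulVec_mulVec, Matrix.mul_adjugate, Matrix.smul_mulVec, Matrix.one_mulVec]
  have hb : ∀ j, B (M.det • d - ((∑ i, a i • b i : C) : L)) (b j) = 0 := by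
    intro j
    rw [hL.symm, map_sub, _root_.map_smul, Submodule.coe_sum, map_sum, sub_eq_zero]
    have h6 := congrFun hMa j
    rw [Matrix.mulVec, dotProduct, Pi.smul_apply] at h6
    rw [← h6]
    refine Finset.sum_congr rfl fun i _ => ?_
    rw [Submodule.coe_smul, _root_.map_smul, smul_eq_mul, mul_comm]
    rfl
  intro e he
  have he2 : e = ((∑ i, (b.repr ⟨e, he⟩ i) • b i : C) : L) := by
    rw [b.sum_repr]
  have h7 : ∀ y : L, (∀ j, B y (b j) = 0) → B y ((∑ i, (b.repr ⟨e, he⟩ i) • b i : C) : L) = 0 := by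
    intro y hy
    rw [Submodule.coe_sum, map_sum]
    refine Finset.sum_eq_zero fun i _ => ?_
    rw [Submodule.coe_smul, _root_.map_smul, hy, smul_zero]
  rw [he2]
  exact h7 _ hb

theorem exists_cartanG (hL : IsLat L B) (g : L ≃ₗ⁅ℤ⁆ L) (hg : ∀ x, g^[31] x = x) :
    ∃ D : Submodule ℤ L, (∀ x ∈ D, g x = x) ∧ (∀ x ∈ D, ∀ y ∈ D, ⁅x, y⁆ = 0) ∧ (∀ v, (∀ x ∈ D, ⁅x, v⁆ = 0) → v ∈ D) ∧
      Module.finrank ℤ D = 8 ∧ ∃ f : ℂ ⊗[ℤ] L ≃ₗ⁅ℂ⁆ Chev ℂ, ∀ x ∈ D, (f (1 ⊗ₜ x)).x = 0 := by
  classical
  -- the maximal abelian submodule of fixed vectors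
  let P : Set (Submodule ℤ L) := {C | (∀ x ∈ C, g x = x) ∧ ∀ x ∈ C, ∀ y ∈ C, ⁅x, y⁆ = 0}
  have hP : P.Nonempty := by
    refine ⟨⊥, ?_, ?_⟩
    · intro x hx
      rw [(Submodule.mem_bot ℤ).mp hx, map_zero]
    · intro x hx y _
      rw [(Submodule.mem_bot ℤ).mp hx, zero_lie]
  obtain ⟨C, hCP, hmax⟩ := set_has_maximal_iff_noetherian.mpr (inferInstance : IsNoetherian ℤ L) P hP
  obtain ⟨hCg, hCC⟩ := hCP
  have hCmem : ∀ x, g x = x → (∀ c ∈ C, ⁅c, x⁆ = 0) → x ∈ C := by
    intro x hx hxc
    by_contra hxC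
    refine hmax (C ⊔ Submodule.span ℤ {x}) ⟨?_, ?_⟩ ?_
    · intro y hy
      obtain ⟨c, hc, z, hz, rfl⟩ := Submodule.mem_sup.mp hy
      obtain ⟨n, rfl⟩ := Submodule.mem_span_singleton.mp hz
      rw [_root_.map_add, hCg c hc, map_zsmul, hx]
    · intro y hy y' hy'
      obtain ⟨c, hc, z, hz, rfl⟩ := Submodule.mem_sup.mp hy
      obtain ⟨n, rfl⟩ := Submodule.mem_span_singleton.mp hz
      obtain ⟨c', hc', z', hz', rfl⟩ := Submodule.mem_sup.mp hy'
      obtain ⟨n', rfl⟩ := Submodule.mem_span_singleton.mp hz'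
      have h1 : ⁅x, c'⁆ = 0 := by rw [← lie_skew, hxc c' hc', neg_zero]
      rw [lie_add, add_lie, add_lie, hCC c hc c' hc', zsmul_lie, h1, lie_zsmul, hxc c hc, lie_zsmul,
        zsmul_lie, lie_self]
      simp
    · refine lt_of_le_of_ne le_sup_left ?_
      intro h
      apply hxC
      rw [h]
      exact Submodule.mem_sup_right (Submodule.mem_span_singleton_self x)
  -- the centraliser
  let D : Submodule ℤ L :=
    { carrier := {v | ∀ c ∈ C, ⁅c, v⁆ = 0}
      zero_mem' := fun c _ => lie_zero c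
      add_mem' := fun {a b} ha hb c hc => by rw [lie_add, ha c hc, hb c hc, add_zero]
      smul_mem' := fun n a ha c hc => by rw [lie_zsmul, ha c hc, smul_zero] }
  have hDdef : ∀ v, v ∈ D ↔ ∀ c ∈ C, ⁅c, v⁆ = 0 := fun v => Iff.rfl
  have hCD : C ≤ D := fun x hx c hc => hCC c hc x hx
  have hDlie : ∀ x ∈ D, ∀ y ∈ D, ⁅x, y⁆ ∈ D := by
    intro x hx y hy c hc
    rw [leibniz_lie, hx c hc, hy c hc, zero_lie, lie_zero, add_zero]
  have hDg : ∀ x ∈ D, g x ∈ D := by
    intro x hx c hc
    have h1 : ⁅g c, g x⁆ = 0 := by rw [← LieEquiv.map_lie, hx c hc, map_zero]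
    rwa [hCg c hc] at h1
  -- the orthogonal complement
  let D' : LieSubalgebra ℤ L :=
    { carrier := {v | v ∈ D ∧ ∀ c ∈ C, B v c = 0}
      zero_mem' := ⟨D.zero_mem, fun c _ => by rw [map_zero, LinearMap.zero_apply]⟩
      add_mem' := fun {a b} ha hb => ⟨D.add_mem ha.1 hb.1, fun c hc => by
        rw [_root_.map_add, LinearMap.add_apply, ha.2 c hc, hb.2 c hc, add_zero]⟩
      smul_mem' := fun n a ha => ⟨D.smul_mem n ha.1, fun c hc => by
        rw [_root_.map_smul, LinearMap.smul_apply, ha.2 c hc, smul_zero]⟩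
      lie_mem' := fun {a b} ha hb => ⟨hDlie a ha.1 b hb.1, fun c hc => by
        rw [hL.inv, ← lie_skew, ha.1 c hc, neg_zero, map_zero, neg_zero]⟩ }
  have hD'def : ∀ v, v ∈ D' ↔ v ∈ D ∧ ∀ c ∈ C, B v c = 0 := fun v => Iff.rfl
  have hD'g : ∀ x ∈ D', g x ∈ D' := by
    intro x hx
    refine ⟨hDg x hx.1, fun c hc => ?_⟩
    have h1 := form_of_aut hL g x c
    rw [hCg c hc] at h1
    rw [h1, hx.2 c hc]
  have hD'ab : ∀ x ∈ D', ∀ y ∈ D', ⁅x, y⁆ = 0 := by
    intro x hx y hy
    let i : D' →ₗ[ℤ] L := D'.incl.toLinearMap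
    have hi : ∀ x : D', i x = (x : L) := fun _ => rfl
    have : Module.Free ℤ D' := (inferInstance : Module.Free ℤ D'.toSubmodule)
    have : Module.Finite ℤ D' := (inferInstance : Module.Finite ℤ D'.toSubmodule)
    let σ : D' →ₗ[ℤ] D' := (g.toLinearEquiv.toLinearMap).restrict hD'g
    have hσ : ∀ x : D', ((σ x : D') : L) = g x := fun _ => rfl
    have h := abel_of_fpf44 (M := D') (B.compl₁₂ i i) (fun x y => hL.symm _ _)
      (fun x y z => hL.inv _ _ _) ?_ σ ?_ ?_ ?_ ?_ ⟨x, hx⟩ ⟨y, hy⟩
    · exact congrArg Subtype.val h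
    · intro v hv
      have h1 : ∀ v w : ℝ ⊗[ℤ] D', (LinearMap.BilinForm.baseChange ℝ (B.compl₁₂ i i)) v w =
          B.baseChange ℝ (i.baseChange ℝ v) (i.baseChange ℝ w) := by
        intro v w
        induction v using TensorProduct.induction_on with
        | zero => rw [map_zero, map_zero, map_zero, LinearMap.zero_apply, LinearMap.zero_apply]
        | add v v' hv hv' =>
          rw [_root_.map_add, _root_.map_add, _root_.map_add, LinearMap.add_apply, LinearMap.add_apply, hv, hv']
        | tmul s x =>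
          induction w using TensorProduct.induction_on with
          | zero => rw [map_zero, map_zero, map_zero]
          | add w w' hw hw' => rw [_root_.map_add, _root_.map_add, _root_.map_add, hw, hw']
          | tmul t y =>
            rw [LinearMap.BilinForm.baseChange_tmul, LinearMap.baseChange_tmul, LinearMap.baseChange_tmul,
              LinearMap.BilinForm.baseChange_tmul]
            rfl
      rw [h1]
      apply hL.pos
      intro h0
      apply hv
      have h2 : Function.Injective (i.lTensor ℝ) :=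
        Module.Flat.lTensor_preserves_injective_linearMap _ (by
          intro a b hab
          exact Subtype.ext hab)
      apply h2
      rw [map_zero]
      exact h0
    · intro x y
      apply Subtype.ext
      exact LieEquiv.map_lie g x y
    · intro x
      apply Subtype.ext
      have h1 : ∀ (n : ℕ) (x : D'), ((σ^[n] x : D') : L) = g^[n] (x : L) := by
        intro n
        induction n with
        | zero => intro x; rfl
        | succ n ih => intro x; rw [Function.iterate_succ_apply, Function.iterate_succ_apply, ih, hσ]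
      rw [h1, hg]
    · intro x y
      exact form_of_aut hL g x y
    · intro x hx
      have h1 : g (x : L) = x := congrArg Subtype.val hx
      have h2 : (x : L) ∈ C := hCmem x h1 x.2.1
      have h3 : B (x : L) (x : L) = 0 := x.2.2 _ h2
      by_contra h4
      have h5 := pos44 hL (x : L) (fun h => h4 (Subtype.ext h))
      omega
  have hDab : ∀ x ∈ D, ∀ y ∈ D, ⁅x, y⁆ = 0 := by
    intro x hx y hy
    obtain ⟨N, hN, c, hc, hNc⟩ := proj44 hL C x
    obtain ⟨N', hN', c', hc', hNc'⟩ := proj44 hL C y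
    have h1 : N • x - c ∈ D' := ⟨D.sub_mem (D.smul_mem N hx) (hCD hc), hNc⟩
    have h2 : N' • y - c' ∈ D' := ⟨D.sub_mem (D.smul_mem N' hy) (hCD hc'), hNc'⟩
    have h3 := hD'ab _ h1 _ h2
    have hcy : ⁅c, y⁆ = 0 := hy c hc
    have hcc : ⁅c, c'⁆ = 0 := hCC c hc c' hc'
    have hxc : ⁅x, c'⁆ = 0 := by rw [← lie_skew, hx c' hc', neg_zero]
    rw [sub_lie, lie_sub, lie_sub, zsmul_lie, zsmul_lie, lie_zsmul, lie_zsmul, hcy, hcc, hxc, smul_zero,
      smul_zero, sub_zero, sub_zero, sub_zero, smul_smul] at h3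
    exact (smul_eq_zero.mp h3).resolve_left (mul_ne_zero hN hN')
  have hself : ∀ v, (∀ x ∈ D, ⁅x, v⁆ = 0) → v ∈ D := fun v hv c hc => hv c (hCD hc)
  obtain ⟨h8, f, hf⟩ := exists_cartanZ hL D hDab hself
  refine ⟨D, ?_, hDab, hself, h8, f, hf⟩
  intro x hx
  have hfix := eq_of_order31 (C := D) (by rw [h8]; norm_num)
    ((g.toLinearEquiv.toLinearMap).restrict hDg) ?_ ⟨x, hx⟩
  · exact congrArg Subtype.val hfix
  · intro y
    apply Subtype.ext
    have h1 : ∀ (n : ℕ) (y : D), (((((g.toLinearEquiv.toLinearMap).restrict hDg))^[n] y : D) : L) = g^[n] (y : L) := by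
      intro n
      induction n with
      | zero => intro y; rfl
      | succ n ih => intro y; rw [Function.iterate_succ_apply, Function.iterate_succ_apply, ih]; rfl
    rw [h1, hg]

end Pool.Agent.Helper73.E8
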