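import Pool.Agent.Helper73.E8.Cpt.Real

/-!
# Block E8-CF: every compact real form of `Chev ℂ` is conjugate to the standard one

Let `j : V → Chev ℂ` be a compact real form (`RealForm`), `τ (j a + i j b) = j a - i j b` its conjugation: antilinear,
`τ τ = 1`, `τ [y, z] = [τ y, τ z]`, `bf (τ y) (τ z) = conj (bf y z)` (by `RealForm.real`). `cc` is the conjugation of the standard
compact form, with the same properties (`cc_lie` etc. by the formulas of `brk`; `eps (-a) (-b) = eps a b`).
`H(y, z) = - bf y (cc z)` is a positive definite hermitian form on `Chev ℂ`: `H(y, y) = ∑ |x_a|^2 + (h, conj h)`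
(the Cartan matrix is positive definite, `four_ip`), and so is `H_τ(y, z) = - bf y (τ z)` (`RealForm.neg`).
`N = τ ∘ cc` is a complex linear automorphism of the Lie algebra `Chev ℂ`, and
`H(N y, z) = - bf (τ cc y) (cc z) = - conj (bf (cc y) (τ cc z)) = - bf y (cc τ cc z) = - bf y (cc (N z)) = H(y, N z)`, and
`H(N y, y) = - bf (τ cc y) (cc y) = H_τ(cc y, cc y) > 0` for `y ≠ 0`. So `N` is self-adjoint and positive definite for `H`:
`Chev ℂ = ⊕_{λ > 0} V_λ`, `V_λ = ker (N - λ)`, `[V_λ, V_μ] ⊆ V_(λ μ)`. Let `S` be multiplication by `√λ` on `V_λ`: an automorphism of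
the Lie algebra, `S^2 = N`. `cc N cc = cc τ = N^-1`, so `cc V_λ = V_(1/λ)` and `cc S = S^-1 cc`. Hence
`S cc S^-1 = S S cc = N cc = τ` and `S^-1 τ S = cc`. Take `φ = S^-1`: `cc (φ (j x)) = S^-1 τ S S^-1 j x = S^-1 (τ (j x)) = φ (j x)`.
(For the spectral theorem: `LinearMap.IsSymmetric` for the inner product space given by `H`, e.g. with an
`InnerProductSpace.Core`; or: a complex linear operator which is self-adjoint for a positive definite hermitian form is
diagonalisable with real eigenvalues: `Module.End.iSup_eigenspace...` by induction on invariant orthogonal complements.)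
-/

set_option autoImplicit false

namespace Pool.Agent.Helper73.E8

open Chev

private theorem spectral53 {E : Type*} [AddCommGroup E] [Module ℂ E] [FiniteDimensional ℂ E]
    (cd : InnerProductSpace.Core ℂ E) (N : E →ₗ[ℂ] E) (hN : ∀ y z, cd.inner (N y) z = cd.inner y (N z)) :
    ∃ (n : ℕ) (b : Module.Basis (Fin n) ℂ E) (l : Fin n → ℝ), ∀ i, N (b i) = (l i : ℂ) • b i := by
  let _ : NormedAddCommGroup E := cd.toNormedAddCommGroup
  let _ : InnerProductSpace ℂ E := InnerProductSpace.ofCore cd.toCore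
  have hT : LinearMap.IsSymmetric (𝕜 := ℂ) (E := E) N := fun y z => hN y z
  refine ⟨Module.finrank ℂ E, (hT.eigenvectorBasis rfl).toBasis, hT.eigenvalues rfl, fun i => ?_⟩
  have h := hT.apply_eigenvectorBasis rfl i
  rw [OrthonormalBasis.coe_toBasis]
  exact h

/-- The positive square root. -/
private theorem sqrt53 {E : Type*} [AddCommGroup E] [Module ℂ E] [FiniteDimensional ℂ E]
    (cd : InnerProductSpace.Core ℂ E) (N : E →ₗ[ℂ] E) (hN : ∀ y z, cd.inner (N y) z = cd.inner y (N z))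
    (hp : ∀ y, y ≠ 0 → 0 < (cd.inner y (N y)).re) :
    ∃ (n : ℕ) (b : Module.Basis (Fin n) ℂ E) (l : Fin n → ℝ) (S : E →ₗ[ℂ] E), (∀ i, 0 < l i) ∧ (∀ i, N (b i) = (l i : ℂ) • b i) ∧
      (∀ i, S (b i) = ((Real.sqrt (l i) : ℝ) : ℂ) • b i) ∧
      (∀ (m : ℝ) (y : E), N y = (m : ℂ) • y → S y = ((Real.sqrt m : ℝ) : ℂ) • y) ∧ (∀ y, S (S y) = N y) := by
  obtain ⟨n, b, l, hb⟩ := spectral53 cd N hN
  have hl : ∀ i, 0 < l i := by
    intro i
    have h1 := hp (b i) (b.ne_zero i)
    have h2 : cd.inner (b i) (N (b i)) = (l i : ℂ) * cd.inner (b i) (b i) := by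
      rw [← hN, hb, cd.smul_left]
      simp
    rw [h2, Complex.re_ofReal_mul] at h1
    have h3 : 0 ≤ (cd.inner (b i) (b i)).re := cd.re_inner_nonneg (b i)
    by_contra h4
    push Not at h4
    have := mul_nonpos_of_nonpos_of_nonneg h4 h3
    linarith
  obtain ⟨S, hS⟩ : ∃ S : E →ₗ[ℂ] E, ∀ i, S (b i) = ((Real.sqrt (l i) : ℝ) : ℂ) • b i :=
    ⟨b.constr ℂ fun i => ((Real.sqrt (l i) : ℝ) : ℂ) • b i, fun i => b.constr_basis ℂ _ i⟩
  refine ⟨n, b, l, S, hl, hb, hS, ?_, ?_⟩
  · intro m y hy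
    have h1 : ∀ i, (l i : ℂ) * b.repr y i = (m : ℂ) * b.repr y i := by
      intro i
      have h2 : N y = ∑ j, (b.repr y j * (l j : ℂ)) • b j := by
        conv_lhs => rw [← b.sum_repr y]
        rw [map_sum]
        refine Finset.sum_congr rfl fun j _ => ?_
        rw [map_smul, hb, smul_smul]
      have h3 : b.repr (N y) i = b.repr y i * (l i : ℂ) := by
        rw [h2, b.repr_sum_self]
      rw [hy, map_smul, Finsupp.smul_apply, smul_eq_mul] at h3
      rw [h3, mul_comm]
    conv_lhs => rw [← b.sum_repr y]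
    conv_rhs => rw [← b.sum_repr y]
    rw [map_sum, Finset.smul_sum]
    refine Finset.sum_congr rfl fun i _ => ?_
    rw [map_smul, hS, smul_smul, smul_smul]
    congr 1
    by_cases h2 : b.repr y i = 0
    · rw [h2]; ring
    · have h3 := mul_right_cancel₀ h2 (h1 i)
      have h4 : l i = m := by exact_mod_cast h3
      rw [h4]
      ring
  · intro y
    have h1 : S ∘ₗ S = N := by
      refine b.ext fun i => ?_
      rw [LinearMap.comp_apply, hS, map_smul, hS, hb, smul_smul, ← Complex.ofReal_mul, Real.mul_self_sqrt (hl i).le]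
    rw [← h1]
    rfl

theorem cc_cc (y : Chev ℂ) : cc (cc y) = y := by
  ext i
  · simp [cc]
  · simp [cc]

private theorem pr_conj53 (h : Fin 8 → ℂ) (a : Lat) : (starRingEnd ℂ) (pr h a) = pr (fun i => (starRingEnd ℂ) (h i)) a := by
  simp only [pr, map_sum, map_mul, map_intCast]

private theorem pr_neg_left53 (h : Fin 8 → ℂ) (a : Lat) : pr (fun i => -h i) a = -pr h a := by
  simp only [pr, neg_mul, Finset.sum_neg_distrib]

theorem cc_lie (y z : Chev ℂ) : cc ⁅y, z⁆ = ⁅cc y, cc z⁆ := by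
  ext i
  · have h1 : (cc ⁅y, z⁆).h i = -(starRingEnd ℂ) (⁅y, z⁆.h i) := rfl
    rw [h1, brk_h, brk_h, map_neg, map_sum, ← Equiv.sum_comp (Equiv.neg Root)]
    refine congrArg Neg.neg ?_
    rw [← Finset.sum_neg_distrib]
    refine Finset.sum_congr rfl fun a _ => ?_
    simp only [Equiv.neg_apply, cc, neg_val, Pi.neg_apply, Int.cast_neg, neg_neg, map_mul, map_neg, map_intCast]
    ring
  · have h1 : (cc ⁅y, z⁆).x i = (starRingEnd ℂ) (⁅y, z⁆.x (-i)) := rfl
    have h2 : (cc y).h = fun i => -(starRingEnd ℂ) (y.h i) := rfl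
    have h3 : (cc z).h = fun i => -(starRingEnd ℂ) (z.h i) := rfl
    rw [h1, brk_x, brk_x, h2, h3, pr_neg_left53, pr_neg_left53, ← pr_conj53, ← pr_conj53, neg_val, pr_neg_right, pr_neg_right,
      map_add, map_sub, map_mul, map_mul, map_neg, map_neg]
    refine congrArg₂ (· + ·) rfl ?_
    rw [map_sum, ← Equiv.sum_comp (Equiv.neg Root)]
    refine Finset.sum_congr rfl fun a _ => ?_
    rw [map_sum, ← Equiv.sum_comp (Equiv.neg Root)]
    refine Finset.sum_congr rfl fun b _ => ?_
    simp only [Equiv.neg_apply, neg_val, eps_neg_left, eps_neg_right]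
    by_cases h : a.1 + b.1 = i.1
    · rw [if_pos h, if_pos (by rw [← h]; abel)]
      simp [cc]
    · rw [if_neg h, if_neg, map_zero]
      intro h4
      apply h
      have h5 : -(-a.1 + -b.1) = -(-i.1) := by rw [h4]
      rw [neg_neg] at h5
      rw [← h5]
      abel

private theorem bf_cc53 (u v : Chev ℂ) : bf (cc u) (cc v) = (starRingEnd ℂ) (bf u v) := by
  simp only [bf, map_sub, map_sum, map_mul, map_intCast]
  congr 1
  · refine Finset.sum_congr rfl fun i _ => Finset.sum_congr rfl fun j _ => ?_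
    simp only [cc]
    ring
  · rw [← Equiv.sum_comp (Equiv.neg Root)]
    refine Finset.sum_congr rfl fun a _ => ?_
    simp only [Equiv.neg_apply, cc, neg_neg]

private theorem four53 (h : Fin 8 → ℂ) : 4 * ∑ i, ∑ j, h i * (CartanMatrix.E₈ i j : ℂ) * (starRingEnd ℂ) (h j) =
    ((Complex.normSq (h 0 + 2 * h 1 - 2 * h 2) + Complex.normSq (-h 0 + 2 * h 1 + 2 * h 2 - 2 * h 3) +
    Complex.normSq (-h 0 + 2 * h 3 - 2 * h 4) + Complex.normSq (-h 0 + 2 * h 4 - 2 * h 5) +
    Complex.normSq (-h 0 + 2 * h 5 - 2 * h 6) +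
    Complex.normSq (-h 0 + 2 * h 6 - 2 * h 7) + Complex.normSq (-h 0 + 2 * h 7) + Complex.normSq (h 0) : ℝ) : ℂ) := by
  push_cast
  simp only [← Complex.mul_conj, map_add, map_sub, map_neg, map_mul, Complex.conj_ofNat]
  simp [Fin.sum_univ_eight, CartanMatrix.E₈]
  ring

theorem cc_pos (y : Chev ℂ) (hy : y ≠ 0) : (bf y (cc y)).re < 0 ∧ (bf y (cc y)).im = 0 := by
  have h1 : bf y (cc y) = -(∑ i, ∑ j, y.h i * (CartanMatrix.E₈ i j : ℂ) * (starRingEnd ℂ) (y.h j)) -
      ((∑ a : Root, Complex.normSq (y.x a) : ℝ) : ℂ) := by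
    unfold bf
    congr 1
    · rw [← Finset.sum_neg_distrib]
      refine Finset.sum_congr rfl fun i _ => ?_
      rw [← Finset.sum_neg_distrib]
      refine Finset.sum_congr rfl fun j _ => ?_
      simp only [cc]
      ring
    · push_cast
      refine Finset.sum_congr rfl fun a _ => ?_
      simp only [cc, neg_neg]
      exact Complex.mul_conj _
  obtain ⟨q, hq, hq0, hz⟩ : ∃ q : ℝ, (∑ i, ∑ j, y.h i * (CartanMatrix.E₈ i j : ℂ) * (starRingEnd ℂ) (y.h j)) = (q : ℂ) ∧ 0 ≤ q ∧
      (q = 0 → y.h = 0) := by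
    have h4 := four53 y.h
    refine ⟨(Complex.normSq (y.h 0 + 2 * y.h 1 - 2 * y.h 2) + Complex.normSq (-y.h 0 + 2 * y.h 1 + 2 * y.h 2 - 2 * y.h 3) +
      Complex.normSq (-y.h 0 + 2 * y.h 3 - 2 * y.h 4) + Complex.normSq (-y.h 0 + 2 * y.h 4 - 2 * y.h 5) +
      Complex.normSq (-y.h 0 + 2 * y.h 5 - 2 * y.h 6) +
      Complex.normSq (-y.h 0 + 2 * y.h 6 - 2 * y.h 7) + Complex.normSq (-y.h 0 + 2 * y.h 7) + Complex.normSq (y.h 0)) / 4, ?_, ?_, ?_⟩
    · rw [Complex.ofReal_div, ← h4]
      push_cast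
      ring
    · have n1 := Complex.normSq_nonneg (y.h 0 + 2 * y.h 1 - 2 * y.h 2)
      have n2 := Complex.normSq_nonneg (-y.h 0 + 2 * y.h 1 + 2 * y.h 2 - 2 * y.h 3)
      have n3 := Complex.normSq_nonneg (-y.h 0 + 2 * y.h 3 - 2 * y.h 4)
      have n4 := Complex.normSq_nonneg (-y.h 0 + 2 * y.h 4 - 2 * y.h 5)
      have n5 := Complex.normSq_nonneg (-y.h 0 + 2 * y.h 5 - 2 * y.h 6)
      have n6 := Complex.normSq_nonneg (-y.h 0 + 2 * y.h 6 - 2 * y.h 7)
      have n7 := Complex.normSq_nonneg (-y.h 0 + 2 * y.h 7)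
      have n8 := Complex.normSq_nonneg (y.h 0)
      positivity
    · intro h
      have n1 := Complex.normSq_nonneg (y.h 0 + 2 * y.h 1 - 2 * y.h 2)
      have n2 := Complex.normSq_nonneg (-y.h 0 + 2 * y.h 1 + 2 * y.h 2 - 2 * y.h 3)
      have n3 := Complex.normSq_nonneg (-y.h 0 + 2 * y.h 3 - 2 * y.h 4)
      have n4 := Complex.normSq_nonneg (-y.h 0 + 2 * y.h 4 - 2 * y.h 5)
      have n5 := Complex.normSq_nonneg (-y.h 0 + 2 * y.h 5 - 2 * y.h 6)
      have n6 := Complex.normSq_nonneg (-y.h 0 + 2 * y.h 6 - 2 * y.h 7)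
      have n7 := Complex.normSq_nonneg (-y.h 0 + 2 * y.h 7)
      have n8 := Complex.normSq_nonneg (y.h 0)
      have e0 : y.h 0 = 0 := Complex.normSq_eq_zero.1 (by linarith)
      have e7 : y.h 7 = 0 := by
        have := Complex.normSq_eq_zero.1 (show Complex.normSq (-y.h 0 + 2 * y.h 7) = 0 by linarith)
        rw [e0] at this
        simpa using this
      have e6 : y.h 6 = 0 := by
        have := Complex.normSq_eq_zero.1 (show Complex.normSq (-y.h 0 + 2 * y.h 6 - 2 * y.h 7) = 0 by linarith)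
        rw [e0, e7] at this
        simpa using this
      have e5 : y.h 5 = 0 := by
        have := Complex.normSq_eq_zero.1 (show Complex.normSq (-y.h 0 + 2 * y.h 5 - 2 * y.h 6) = 0 by linarith)
        rw [e0, e6] at this
        simpa using this
      have e4 : y.h 4 = 0 := by
        have := Complex.normSq_eq_zero.1 (show Complex.normSq (-y.h 0 + 2 * y.h 4 - 2 * y.h 5) = 0 by linarith)
        rw [e0, e5] at this
        simpa using this
      have e3 : y.h 3 = 0 := by
        have := Complex.normSq_eq_zero.1 (show Complex.normSq (-y.h 0 + 2 * y.h 3 - 2 * y.h 4) = 0 by linarith)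
        rw [e0, e4] at this
        simpa using this
      have f1 := Complex.normSq_eq_zero.1 (show Complex.normSq (y.h 0 + 2 * y.h 1 - 2 * y.h 2) = 0 by linarith)
      have f2 := Complex.normSq_eq_zero.1 (show Complex.normSq (-y.h 0 + 2 * y.h 1 + 2 * y.h 2 - 2 * y.h 3) = 0 by linarith)
      rw [e0] at f1 f2
      rw [e3] at f2
      have e1 : y.h 1 = 0 := by linear_combination (1 / 4 : ℂ) * f1 + (1 / 4 : ℂ) * f2
      have e2 : y.h 2 = 0 := by linear_combination (-1 / 4 : ℂ) * f1 + (1 / 4 : ℂ) * f2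
      funext i
      fin_cases i
      · exact e0
      · exact e1
      · exact e2
      · exact e3
      · exact e4
      · exact e5
      · exact e6
      · exact e7
  have h2 : bf y (cc y) = ((-(q + ∑ a : Root, Complex.normSq (y.x a)) : ℝ) : ℂ) := by
    rw [h1, hq]
    push_cast
    ring
  rw [h2, Complex.ofReal_re, Complex.ofReal_im]
  refine ⟨?_, rfl⟩
  have h3 : 0 ≤ ∑ a : Root, Complex.normSq (y.x a) := Finset.sum_nonneg fun a _ => Complex.normSq_nonneg _
  rcases hq0.lt_or_eq with h4 | h4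
  · linarith
  · have h5 : y.h = 0 := hz h4.symm
    have h6 : 0 < ∑ a : Root, Complex.normSq (y.x a) := by
      refine lt_of_le_of_ne h3 fun h7 => hy ?_
      have h8 := (Finset.sum_eq_zero_iff_of_nonneg fun a _ => Complex.normSq_nonneg (y.x a)).1 h7.symm
      ext i
      · rw [h5]; rfl
      · exact Complex.normSq_eq_zero.1 (h8 i (Finset.mem_univ i))
    linarith

private theorem cc_add53 (y z : Chev ℂ) : cc (y + z) = cc y + cc z := by
  ext i
  · simp [cc, add_comm]
  · simp [cc]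

private theorem cc_smul53 (r : ℂ) (y : Chev ℂ) : cc (r • y) = (starRingEnd ℂ) r • cc y := by
  ext i
  · simp [cc]
  · simp [cc]

/-- The conjugation of a real form. -/
private theorem tau53 {V : Type*} [LieRing V] [LieAlgebra ℝ V] (j : V → Chev ℂ) (hj : RealForm j) :
    ∃ τ : Chev ℂ → Chev ℂ, (∀ y z, τ (y + z) = τ y + τ z) ∧ (∀ (r : ℂ) y, τ (r • y) = (starRingEnd ℂ) r • τ y) ∧
      (∀ y, τ (τ y) = y) ∧ (∀ y z, τ ⁅y, z⁆ = ⁅τ y, τ z⁆) ∧ (∀ y z, bf (τ y) (τ z) = (starRingEnd ℂ) (bf y z)) ∧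
      (∀ y, y ≠ 0 → (bf y (τ y)).re < 0) ∧ ∀ x, τ (j x) = j x := by
  choose f g hfg using hj.span
  have hneg : ∀ x, j (-x) = -j x := by
    intro x
    have := hj.smul (-1) x
    rw [neg_one_smul] at this
    rw [this]
    simp
  have hsub : ∀ x y, j (x - y) = j x - j y := fun x y => by rw [sub_eq_add_neg, hj.add, hneg, sub_eq_add_neg]
  have hz : j 0 = 0 := by
    have := hj.smul 0 0
    simpa using this
  obtain ⟨τ, hτ⟩ : ∃ τ : Chev ℂ → Chev ℂ, ∀ y, τ y = j (f y) - Complex.I • j (g y) := ⟨_, fun _ => rfl⟩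
  have key : ∀ a b, τ (j a + Complex.I • j b) = j a - Complex.I • j b := by
    intro a b
    have h1 := hfg (j a + Complex.I • j b)
    have h2 := hj.inj (a - f (j a + Complex.I • j b)) (b - g (j a + Complex.I • j b)) (by
      rw [hsub, hsub, smul_sub]
      rw [← sub_eq_zero] at h1
      rw [← h1]
      abel)
    rw [hτ, ← sub_eq_zero.1 h2.1, ← sub_eq_zero.1 h2.2]
  have hfac : ∀ (r : ℝ) x, (r : ℂ) • j x = j (r • x) := fun r x => (hj.smul r x).symm
  refine ⟨τ, ?_, ?_, ?_, ?_, ?_, ?_, ?_⟩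
  · intro y z
    have h1 : y + z = j (f y + f z) + Complex.I • j (g y + g z) := by
      conv_lhs => rw [hfg y, hfg z]
      rw [hj.add, hj.add, smul_add]
      abel
    rw [h1, key, hτ y, hτ z, hj.add, hj.add, smul_add]
    abel
  · intro r y
    have h1 : r • y = j (r.re • f y - r.im • g y) + Complex.I • j (r.im • f y + r.re • g y) := by
      conv_lhs => rw [hfg y]
      rw [hj.add, hsub, hj.smul, hj.smul, hj.smul, hj.smul]
      conv_lhs => rw [← Complex.re_add_im r]
      linear_combination (norm := module) ((r.im : ℂ) * Complex.I_mul_I) • j (g y)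
    rw [h1, key, hτ y, hj.add, hsub, hj.smul, hj.smul, hj.smul, hj.smul]
    have h2 : (starRingEnd ℂ) r = (r.re : ℂ) - r.im * Complex.I := by
      apply Complex.ext <;> simp
    rw [h2]
    linear_combination (norm := module) (-(r.im : ℂ) * Complex.I_mul_I) • j (g y)
  · intro y
    have h1 : τ y = j (f y) + Complex.I • j (-(g y)) := by
      rw [hτ, hneg, smul_neg, sub_eq_add_neg]
    rw [h1, key, hneg, smul_neg, sub_neg_eq_add]
    exact (hfg y).symm
  · intro y z
    have h1 : ⁅y, z⁆ = j (⁅f y, f z⁆ - ⁅g y, g z⁆) + Complex.I • j (⁅f y, g z⁆ + ⁅g y, f z⁆) := by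
      conv_lhs => rw [hfg y, hfg z]
      rw [hj.add, hsub, hj.lie, hj.lie, hj.lie, hj.lie]
      simp only [add_lie, lie_add, lie_smul, smul_lie, smul_smul, smul_add, Complex.I_mul_I, neg_smul, one_smul]
      abel
    rw [h1, key, hτ y, hτ z, hj.add, hsub, hj.lie, hj.lie, hj.lie, hj.lie]
    simp only [sub_lie, lie_sub, lie_smul, smul_lie, smul_smul, smul_add, smul_sub, Complex.I_mul_I, neg_smul, one_smul]
    abel
  · intro y z
    have hr : ∀ u v, (starRingEnd ℂ) (bf (j u) (j v)) = bf (j u) (j v) := fun u v => Complex.conj_eq_iff_im.2 (hj.real u v)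
    have hn : ∀ (u v w : Chev ℂ), bf (u - v) w = bf u w - bf v w := by
      intro u v w
      rw [sub_eq_add_neg, bf_add_left, ← neg_one_smul ℂ v, bf_smul_left]
      ring
    have hn' : ∀ (u v w : Chev ℂ), bf w (u - v) = bf w u - bf w v := by
      intro u v w
      rw [sub_eq_add_neg, bf_add_right, ← neg_one_smul ℂ v, bf_smul_right]
      ring
    conv_rhs => rw [hfg y, hfg z]
    rw [hτ y, hτ z, hn, hn', hn', bf_add_left, bf_add_right, bf_add_right]
    simp only [bf_smul_left, bf_smul_right, map_add, map_mul, Complex.conj_I, hr]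
    ring
  · intro y hy
    have h1 : bf y (τ y) = bf (j (f y)) (j (f y)) + bf (j (g y)) (j (g y)) := by
      have hn' : ∀ (u v w : Chev ℂ), bf w (u - v) = bf w u - bf w v := by
        intro u v w
        rw [sub_eq_add_neg, bf_add_right, ← neg_one_smul ℂ v, bf_smul_right]
        ring
      rw [hτ]
      conv_lhs =>
        enter [1]
        rw [hfg y]
      rw [bf_add_left, hn', hn']
      simp only [bf_smul_left, bf_smul_right]
      rw [bf_comm (j (g y)) (j (f y))]
      linear_combination (-bf (j (g y)) (j (g y))) * Complex.I_mul_I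
    have h2 : f y ≠ 0 ∨ g y ≠ 0 := by
      by_contra h3
      push Not at h3
      apply hy
      rw [hfg y, h3.1, h3.2, hz]
      simp
    have h3 : ∀ x, (bf (j x) (j x)).re ≤ 0 := by
      intro x
      by_cases hx : x = 0
      · rw [hx, hz]
        simp [bf]
      · exact (hj.neg x hx).le
    rw [h1, Complex.add_re]
    rcases h2 with h2 | h2
    · have := hj.neg _ h2
      have := h3 (g y)
      linarith
    · have := hj.neg _ h2
      have := h3 (f y)
      linarith
  · intro x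
    have h1 : j x = j x + Complex.I • j 0 := by rw [hz]; simp
    conv_lhs => rw [h1]
    rw [key, hz]
    simp

theorem exists_conj {V : Type*} [LieRing V] [LieAlgebra ℝ V] (j : V → Chev ℂ) (hj : RealForm j) :
    ∃ φ : Chev ℂ ≃ₗ⁅ℂ⁆ Chev ℂ, ∀ x, cc (φ (j x)) = φ (j x) := by
  obtain ⟨τ, t1, t2, t3, t4, t5, t6, t7⟩ := tau53 j hj
  obtain ⟨N, hN⟩ : ∃ N : Chev ℂ →ₗ[ℂ] Chev ℂ, ∀ y, N y = τ (cc y) :=
    ⟨{ toFun := fun y => τ (cc y)
       map_add' := fun y z => by rw [cc_add53, t1]
       map_smul' := fun r y => by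
        rw [cc_smul53, t2, RingHom.id_apply, Complex.conj_conj] }, fun _ => rfl⟩
  have hnegl : ∀ (u w : Chev ℂ), bf (-u) w = -bf u w := by
    intro u w
    rw [← neg_one_smul ℂ u, bf_smul_left]
    ring
  have hcc0 : ∀ y, cc y = 0 → y = 0 := by
    intro y hy
    rw [← cc_cc y, hy]
    ext i <;> simp [cc]
  let cd : InnerProductSpace.Core ℂ (Chev ℂ) :=
    { inner := fun y z => -bf (cc y) z
      conj_inner_symm := fun y z => by
        rw [map_neg, ← bf_cc53, cc_cc, bf_comm]
      re_inner_nonneg := fun y => by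
        by_cases hy : y = 0
        · rw [hy]
          simp [bf]
        · have := (cc_pos y hy).1
          rw [bf_comm]
          change 0 ≤ (-bf y (cc y)).re
          rw [Complex.neg_re]
          linarith
      add_left := fun x y z => by
        rw [cc_add53, bf_add_left]
        ring
      smul_left := fun x y r => by
        rw [cc_smul53, bf_smul_left]
        ring
      definite := fun y hy => by
        by_contra h
        have h1 := (cc_pos y h).1
        rw [bf_comm] at h1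
        have h2 : bf (cc y) y = 0 := neg_eq_zero.1 hy
        rw [h2] at h1
        simp at h1 }
  have hinn : ∀ y z, cd.inner y z = -bf (cc y) z := fun _ _ => rfl
  obtain ⟨n, b, l, S, hl, hb, hSb, hS, hSS⟩ := sqrt53 cd N (by
    intro y z
    rw [hinn, hinn, hN, hN]
    have h1 := bf_cc53 (τ (cc y)) (cc z)
    rw [cc_cc] at h1
    have h2 := t5 (cc y) (τ (cc z))
    rw [t3] at h2
    rw [h1, h2, Complex.conj_conj]) (by
    intro y hy
    rw [hinn, hN, Complex.neg_re]
    have := t6 (cc y) (fun h => hy (hcc0 y h))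
    linarith)
  have hNb : ∀ i, N (cc (b i)) = (((l i)⁻¹ : ℝ) : ℂ) • cc (b i) := by
    intro i
    have h1 := hb i
    rw [hN] at h1
    have h2 : τ (τ (cc (b i))) = τ ((l i : ℂ) • b i) := by rw [h1]
    rw [t3, t2, Complex.conj_ofReal] at h2
    rw [hN, cc_cc, h2, smul_smul, ← Complex.ofReal_mul, inv_mul_cancel₀ (hl i).ne', Complex.ofReal_one, one_smul]
  have hScS : ∀ y, S (cc (S y)) = cc y := by
    intro y
    have h1 : ∀ i, S (cc (S (b i))) = cc (b i) := by
      intro i
      rw [hSb, cc_smul53, Complex.conj_ofReal, map_smul, hS _ _ (hNb i), smul_smul, ← Complex.ofReal_mul,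
        ← Real.sqrt_mul (hl i).le, mul_inv_cancel₀ (hl i).ne', Real.sqrt_one, Complex.ofReal_one, one_smul]
    let f1 : Chev ℂ →ₛₗ[starRingEnd ℂ] Chev ℂ :=
      { toFun := fun y => S (cc (S y))
        map_add' := fun y z => by rw [map_add, cc_add53, map_add]
        map_smul' := fun r y => by rw [map_smul, cc_smul53, map_smul] }
    let f2 : Chev ℂ →ₛₗ[starRingEnd ℂ] Chev ℂ :=
      { toFun := fun y => cc y
        map_add' := fun y z => by rw [cc_add53]
        map_smul' := fun r y => by rw [cc_smul53] }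
    have h2 : f1 = f2 := b.ext h1
    exact LinearMap.congr_fun h2 y
  have hSlie : ∀ y z, S ⁅y, z⁆ = ⁅S y, S z⁆ := by
    have h1 : ∀ i k, S ⁅b i, b k⁆ = ⁅S (b i), S (b k)⁆ := by
      intro i k
      have h2 : N ⁅b i, b k⁆ = ((l i * l k : ℝ) : ℂ) • ⁅b i, b k⁆ := by
        rw [hN, cc_lie, t4, ← hN, ← hN, hb, hb, smul_lie, lie_smul, smul_smul, Complex.ofReal_mul]
      rw [hS _ _ h2, hSb, hSb, smul_lie, lie_smul, smul_smul, Real.sqrt_mul (hl i).le, Complex.ofReal_mul]
    have h3 : ∀ i z, S ⁅b i, z⁆ = ⁅S (b i), S z⁆ := by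
      intro i z
      have h4 : S ∘ₗ (LieAlgebra.ad ℂ (Chev ℂ) (b i)) = (LieAlgebra.ad ℂ (Chev ℂ) (S (b i))) ∘ₗ S := b.ext fun k => h1 i k
      exact LinearMap.congr_fun h4 z
    intro y z
    have h5 : S ∘ₗ (LieAlgebra.ad ℂ (Chev ℂ) z) = (LieAlgebra.ad ℂ (Chev ℂ) (S z)) ∘ₗ S := by
      refine b.ext fun k => ?_
      change S ⁅z, b k⁆ = ⁅S z, S (b k)⁆
      rw [← lie_skew, map_neg, h3, lie_skew]
    have h6 : S ⁅z, y⁆ = ⁅S z, S y⁆ := LinearMap.congr_fun h5 y
    rw [← lie_skew, map_neg, h6, lie_skew]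
  have hSinj : Function.Injective S := by
    rw [injective_iff_map_eq_zero]
    intro y hy
    have h1 := hSS y
    rw [hy, map_zero, hN] at h1
    have h2 : cc y = 0 := by
      rw [← t3 (cc y), ← h1]
      have := t2 0 0
      simpa using this
    exact hcc0 y h2
  have hSbij : Function.Bijective S := ⟨hSinj, LinearMap.injective_iff_surjective.1 hSinj⟩
  let SL : Chev ℂ ≃ₗ⁅ℂ⁆ Chev ℂ := LieEquiv.ofBijective
    { S with map_lie' := fun {y z} => hSlie y z } hSbij
  refine ⟨SL.symm, fun x => ?_⟩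
  obtain ⟨u, hu⟩ : ∃ u, u = SL.symm (j x) := ⟨_, rfl⟩
  rw [← hu]
  have h1 : S u = j x := by
    rw [hu]
    exact SL.apply_symm_apply (j x)
  apply hSinj
  have h2 : τ (j x) = S (S (cc (j x))) := by
    rw [hSS, hN, cc_cc]
  rw [t7, ← h1] at h2
  rw [hScS] at h2
  exact h2.symm

end Pool.Agent.Helper73.E8
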