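import Pool.Agent.Helper73.E8.Kill

/-!
# Compact real forms of the complex Lie algebra of type E8 (definitions)
-/

set_option autoImplicit false

namespace Pool.Agent.Helper73.E8

open Chev

/-- `j : V → Chev ℂ` identifies the real Lie algebra `V` with a compact real form of `Chev ℂ`. -/
structure RealForm {V : Type*} [LieRing V] [LieAlgebra ℝ V] (j : V → Chev ℂ) : Prop where
  add : ∀ x y, j (x + y) = j x + j y
  smul : ∀ (r : ℝ) x, j (r • x) = (r : ℂ) • j x
  lie : ∀ x y, j ⁅x, y⁆ = ⁅j x, j y⁆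
  span : ∀ y, ∃ a b, y = j a + Complex.I • j b
  inj : ∀ a b, j a + Complex.I • j b = 0 → a = 0 ∧ b = 0
  real : ∀ x y, (bf (j x) (j y)).im = 0
  neg : ∀ x, x ≠ 0 → (bf (j x) (j x)).re < 0

/-- The conjugation of the standard compact real form: `h ↦ - conj h`, `x_a ↦ conj x_(-a)`. -/
noncomputable def cc (y : Chev ℂ) : Chev ℂ :=
  ⟨fun i => -(starRingEnd ℂ) (y.h i), fun a => (starRingEnd ℂ) (y.x (-a))⟩

end Pool.Agent.Helper73.E8
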